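import Mathlib

/-!
Congruent numbers of the form `g (g² X⁴ - c⁴) / w²`, and primitive solutions.
-/

set_option autoImplicit false

namespace Pool.Agent.T6.H10.CT

/-- `x² + a y² = z²`, `x² - a y² = t²` is solvable in positive integers -/
def Cong (a : ℕ) : Prop :=
  ∃ x y z t : ℕ, 0 < x ∧ 0 < y ∧ 0 < z ∧ 0 < t ∧ x ^ 2 + a * y ^ 2 = z ^ 2 ∧
    x ^ 2 = a * y ^ 2 + t ^ 2

theorem cong_of {g X c w n : ℕ} (hg : Odd g) (hX : Odd X) (hc : Odd c) (hw : 0 < w) (hn : 0 < n)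
    (h : w ^ 2 * n + c ^ 4 = g ^ 2 * X ^ 4) : Cong (g * n) := by
  have hX0 : 0 < X := hX.pos
  have hc0 : 0 < c := hc.pos
  have hg0 : 0 < g := hg.pos
  have hh : (w : ℤ) ^ 2 * n + (c : ℤ) ^ 4 = (g : ℤ) ^ 2 * (X : ℤ) ^ 4 := by exact_mod_cast h
  have hwn : (0 : ℤ) < (w : ℤ) ^ 2 * n := by positivity
  set D : ℤ := (g : ℤ) ^ 2 * (X : ℤ) ^ 4 - (c : ℤ) ^ 4 - 2 * g * (X : ℤ) ^ 2 * (c : ℤ) ^ 2 with hD
  set Z : ℤ := (g : ℤ) ^ 2 * (X : ℤ) ^ 4 - (c : ℤ) ^ 4 + 2 * g * (X : ℤ) ^ 2 * (c : ℤ) ^ 2 with hZ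
  have hZ0 : 0 < Z := by
    have : (0 : ℤ) ≤ 2 * g * (X : ℤ) ^ 2 * (c : ℤ) ^ 2 := by positivity
    omega
  have hD0 : D ≠ 0 := by
    obtain ⟨i, rfl⟩ := hX
    obtain ⟨j, rfl⟩ := hc
    obtain ⟨k, rfl⟩ := hg
    intro h0
    have h1 : (D : ZMod 4) = 0 := by rw [h0]; simp
    rw [hD] at h1
    push_cast at h1
    have h2 : ∀ i j k : ZMod 4, (2 * k + 1) ^ 2 * (2 * i + 1) ^ 4 - (2 * j + 1) ^ 4 -
        2 * (2 * k + 1) * (2 * i + 1) ^ 2 * (2 * j + 1) ^ 2 ≠ 0 := by decide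
    exact h2 _ _ _ h1
  refine ⟨g ^ 2 * X ^ 4 + c ^ 4, 2 * (w * X * c), Z.natAbs, D.natAbs, by positivity, by positivity,
    by omega, by omega, ?_, ?_⟩
  · zify
    rw [sq_abs, hZ]
    linear_combination (4 * (g : ℤ) * (X : ℤ) ^ 2 * (c : ℤ) ^ 2) * hh
  · zify
    rw [sq_abs, hD]
    linear_combination (-4 * (g : ℤ) * (X : ℤ) ^ 2 * (c : ℤ) ^ 2) * hh

theorem odd_sq {x : ℕ} (h : Odd x) : x ^ 2 % 8 = 1 := by
  obtain ⟨i, rfl⟩ := h
  obtain ⟨k, hk⟩ := Nat.even_mul_succ_self i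
  have : (2 * i + 1) ^ 2 = 4 * (i * i.succ) + 1 := by simp only [Nat.succ_eq_add_one]; ring
  rw [this, hk]
  omega

theorem dvd_of_sq {δ p y : ℕ} (hδ : Squarefree δ) (hp : p.Prime) (h : p ^ 2 ∣ δ * y ^ 2) :
    p ∣ y := by
  by_contra hy
  have h1 : Nat.Coprime (p ^ 2) (y ^ 2) :=
    Nat.Coprime.pow 2 2 ((Nat.Prime.coprime_iff_not_dvd hp).2 hy)
  have h2 : p ^ 2 ∣ δ := h1.dvd_of_dvd_mul_right h
  have h3 := hδ p (by rw [← sq]; exact h2)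
  exact hp.one_lt.ne' (Nat.isUnit_iff.1 h3)

/-- the congruences satisfied by a primitive solution -/
theorem prim_of {δ x y z t : ℕ} (hδ : Squarefree δ) (hxy : Nat.Coprime x y) (hx' : 0 < x)
    (hy' : 0 < y) (ht' : 0 < t) (e1 : x ^ 2 + δ * y ^ 2 = z ^ 2) (e2 : x ^ 2 = δ * y ^ 2 + t ^ 2) :
    ∃ v : ℕ, 0 < v ∧ 2 * x * y = 4 * v ∧ z ^ 4 = t ^ 4 + δ * (4 * v) ^ 2 ∧ Odd z ∧ Odd t ∧
      Nat.Coprime z t ∧ Nat.Coprime z v ∧ Nat.Coprime t v := by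
  have cop : ∀ p : ℕ, p.Prime → p ∣ x → p ∣ y → False := fun p hp ha hb =>
    hp.one_lt.ne' (Nat.dvd_one.1 (hxy ▸ Nat.dvd_gcd ha hb))
  -- parity
  have hpar : Odd z ∧ Odd t ∧ Odd x ∧ Even y := by
    have s1 : z ^ 2 + t ^ 2 = 2 * x ^ 2 := by omega
    have hnb : ¬ (Even z ∧ Even t) := by
      rintro ⟨⟨a, ha⟩, ⟨b, hb⟩⟩
      have hxe : Even x := by
        rcases Nat.even_or_odd x with h | ⟨i, hi⟩
        · exact h
        · exfalso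
          rw [ha, hb, hi] at s1
          ring_nf at s1
          omega
      obtain ⟨i, hi⟩ := hxe
      have hyo : Odd y := by
        rcases Nat.even_or_odd y with h | h
        · exact (cop 2 Nat.prime_two (even_iff_two_dvd.1 ⟨i, hi⟩) (even_iff_two_dvd.1 h)).elim
        · exact h
      obtain ⟨j, hj⟩ := hyo
      have s2 : a ^ 2 + b ^ 2 = 2 * i ^ 2 := by
        rw [ha, hb, hi] at s1
        ring_nf at s1
        ring_nf
        omega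
      have s3 : (a + a) ^ 2 = (i + i) ^ 2 + δ * (2 * j + 1) ^ 2 := by
        rw [← ha, ← hi, ← hj]; omega
      -- δ y² = 4 (a² - i²), a² - i² = i² - b² is even, in fact a ≡ b mod 2
      have s4 : (4 : ℕ) ∣ δ * (2 * j + 1) ^ 2 := by
        have : (4 : ℕ) ∣ (i + i) ^ 2 + δ * (2 * j + 1) ^ 2 := by
          rw [← s3]; exact ⟨a ^ 2, by ring⟩
        exact (Nat.dvd_add_right ⟨i ^ 2, by ring⟩).1 this
      have s5 : Nat.Coprime 4 ((2 * j + 1) ^ 2) := by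
        have h6 : Nat.Coprime 2 (2 * j + 1) := by
          rw [Nat.prime_two.coprime_iff_not_dvd]; omega
        exact (Nat.Coprime.pow 2 2 h6)
      have s6 : 2 * 2 ∣ δ := s5.dvd_of_dvd_mul_right s4
      have := Nat.isUnit_iff.1 (hδ 2 s6)
      omega
    have hpp : Even z ↔ Even t := by
      have h3 : Even (z ^ 2 + t ^ 2) := by rw [s1]; exact even_two_mul _
      have h4 : Even (z ^ 2) ↔ Even (t ^ 2) := Nat.even_add.1 h3
      rw [Nat.even_pow' two_ne_zero, Nat.even_pow' two_ne_zero] at h4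
      exact h4
    have hzo : Odd z := by
      rw [← Nat.not_even_iff_odd]; intro h; exact hnb ⟨h, hpp.1 h⟩
    have hto : Odd t := by
      rw [← Nat.not_even_iff_odd]; intro h; exact hnb ⟨hpp.2 h, h⟩
    have hz8 : z ^ 2 % 8 = 1 := odd_sq hzo
    have ht8 : t ^ 2 % 8 = 1 := odd_sq hto
    have hxo : Odd x := by
      rw [← Nat.not_even_iff_odd]
      rintro ⟨i, hi⟩
      have : x ^ 2 = 4 * i ^ 2 := by rw [hi]; ring
      omega
    have hx8 : x ^ 2 % 8 = 1 := odd_sq hxo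
    refine ⟨hzo, hto, hxo, ?_⟩
    rw [← Nat.not_odd_iff_even]
    intro hyo
    have hy8 : y ^ 2 % 8 = 1 := odd_sq hyo
    have h5 : (δ * y ^ 2) % 8 = 0 := by omega
    have h6 : (δ * y ^ 2) % 8 = δ % 8 := by
      rw [Nat.mul_mod, hy8, mul_one, Nat.mod_mod]
    have h7 : 2 * 2 ∣ δ := by omega
    have := Nat.isUnit_iff.1 (hδ 2 h7)
    omega
  obtain ⟨hzo, hto, hxo, ⟨y', hy2⟩⟩ := hpar
  have cz : ∀ p : ℕ, p.Prime → p ∣ z → p ∣ x → False := by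
    intro p hp hpz hpx
    refine cop p hp hpx (dvd_of_sq hδ hp ?_)
    have h3 : p ^ 2 ∣ x ^ 2 + δ * y ^ 2 := by rw [e1]; exact pow_dvd_pow_of_dvd hpz 2
    exact (Nat.dvd_add_right (pow_dvd_pow_of_dvd hpx 2)).1 h3
  have ct : ∀ p : ℕ, p.Prime → p ∣ t → p ∣ x → False := by
    intro p hp hpt hpx
    refine cop p hp hpx (dvd_of_sq hδ hp ?_)
    have h3 : p ^ 2 ∣ δ * y ^ 2 + t ^ 2 := by rw [← e2]; exact pow_dvd_pow_of_dvd hpx 2
    exact (Nat.dvd_add_left (pow_dvd_pow_of_dvd hpt 2)).1 h3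
  have czy : ∀ p : ℕ, p.Prime → p ∣ z → p ∣ y → False := by
    intro p hp hpz hpy
    refine cz p hp hpz ?_
    have h3 : p ∣ x ^ 2 + δ * y ^ 2 := by rw [e1]; exact dvd_pow hpz two_ne_zero
    exact hp.dvd_of_dvd_pow ((Nat.dvd_add_left ((dvd_pow hpy two_ne_zero).mul_left _)).1 h3)
  have cty : ∀ p : ℕ, p.Prime → p ∣ t → p ∣ y → False := by
    intro p hp hpt hpy
    refine ct p hp hpt ?_
    have h3 : p ∣ x ^ 2 := by
      rw [e2]
      exact dvd_add ((dvd_pow hpy two_ne_zero).mul_left _) (dvd_pow hpt two_ne_zero)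
    exact hp.dvd_of_dvd_pow h3
  refine ⟨x * y', Nat.mul_pos hx' (by omega), by rw [hy2]; ring, ?_, hzo, hto, ?_, ?_, ?_⟩
  · have hy4 : y ^ 2 = 4 * y' ^ 2 := by rw [hy2]; ring
    zify at e1 e2 hy4 ⊢
    have a1 : (z : ℤ) ^ 2 = x ^ 2 + δ * y ^ 2 := e1.symm
    have a2 : (t : ℤ) ^ 2 = x ^ 2 - δ * y ^ 2 := by linarith
    have a3 : (z : ℤ) ^ 4 = (x ^ 2 + δ * y ^ 2) ^ 2 := by rw [← a1]; ring
    have a4 : (t : ℤ) ^ 4 = (x ^ 2 - δ * y ^ 2) ^ 2 := by rw [← a2]; ring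
    rw [a3, a4]
    linear_combination (4 * (x : ℤ) ^ 2 * δ) * hy4
  · refine Nat.Coprime.symm ?_
    rw [Nat.coprime_comm]
    refine Nat.coprime_of_dvd fun p hp h3 h4 => ?_
    -- p | z, p | t : p odd, p² | 2 x²
    have hp2 : p ≠ 2 := by
      rintro rfl
      exact (Nat.not_even_iff_odd.2 hzo) (even_iff_two_dvd.2 h3)
    have h5 : p ∣ 2 * x ^ 2 := by
      have s1 : z ^ 2 + t ^ 2 = 2 * x ^ 2 := by omega
      rw [← s1]
      exact dvd_add (dvd_pow h3 two_ne_zero) (dvd_pow h4 two_ne_zero)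
    rcases (Nat.Prime.dvd_mul hp).1 h5 with h6 | h6
    · exact hp2 ((Nat.prime_dvd_prime_iff_eq hp Nat.prime_two).1 h6)
    · exact cz p hp h3 (hp.dvd_of_dvd_pow h6)
  · refine Nat.coprime_of_dvd fun p hp h3 h4 => ?_
    rcases (Nat.Prime.dvd_mul hp).1 h4 with h5 | h5
    · exact cz p hp h3 h5
    · exact czy p hp h3 (by rw [hy2]; exact dvd_add h5 h5)
  · refine Nat.coprime_of_dvd fun p hp h3 h4 => ?_
    rcases (Nat.Prime.dvd_mul hp).1 h4 with h5 | h5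
    · exact ct p hp h3 h5
    · exact cty p hp h3 (by rw [hy2]; exact dvd_add h5 h5)

/-- a primitive solution -/
theorem prim {δ : ℕ} (h : Cong δ) :
    ∃ x y z t : ℕ, 0 < x ∧ 0 < y ∧ 0 < z ∧ 0 < t ∧ Nat.Coprime x y ∧ x ^ 2 + δ * y ^ 2 = z ^ 2 ∧
      x ^ 2 = δ * y ^ 2 + t ^ 2 := by
  obtain ⟨x₀, y₀, z₀, t₀, hx0, hy0, hz0, ht0, h1, h2⟩ := h
  obtain ⟨x, y, hxy, hx, hy⟩ := Nat.exists_coprime x₀ y₀
  set g := Nat.gcd x₀ y₀ with hg
  have hg0 : 0 < g := Nat.gcd_pos_of_pos_left _ hx0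
  have hzg : g ∣ z₀ := by
    rw [← Nat.pow_dvd_pow_iff (two_ne_zero), ← h1, hx, hy]
    exact ⟨x ^ 2 + δ * y ^ 2, by ring⟩
  have htg : g ∣ t₀ := by
    rw [← Nat.pow_dvd_pow_iff (two_ne_zero)]
    have h3 : g ^ 2 ∣ δ * y₀ ^ 2 + t₀ ^ 2 := by
      rw [← h2, hx]; exact ⟨x ^ 2, by ring⟩
    have h4 : g ^ 2 ∣ δ * y₀ ^ 2 := by rw [hy]; exact ⟨δ * y ^ 2, by ring⟩
    exact (Nat.dvd_add_right h4).1 h3
  obtain ⟨z, hz⟩ := hzg
  obtain ⟨t, ht⟩ := htg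
  have hg2 : 0 < g ^ 2 := by positivity
  have e1 : x ^ 2 + δ * y ^ 2 = z ^ 2 := by
    have : g ^ 2 * (x ^ 2 + δ * y ^ 2) = g ^ 2 * z ^ 2 := by
      rw [hx, hy, hz] at h1
      linarith
    exact Nat.eq_of_mul_eq_mul_left hg2 this
  have e2 : x ^ 2 = δ * y ^ 2 + t ^ 2 := by
    have : g ^ 2 * (x ^ 2) = g ^ 2 * (δ * y ^ 2 + t ^ 2) := by
      rw [hx, hy, ht] at h2
      linarith
    exact Nat.eq_of_mul_eq_mul_left hg2 this
  have hx' : 0 < x := by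
    rcases Nat.eq_zero_or_pos x with h | h
    · rw [h] at hx; omega
    · exact h
  have hy' : 0 < y := by
    rcases Nat.eq_zero_or_pos y with h | h
    · rw [h] at hy; omega
    · exact h
  have ht' : 0 < t := by
    rcases Nat.eq_zero_or_pos t with h | h
    · rw [h] at ht; omega
    · exact h
  have hz' : 0 < z := by
    rcases Nat.eq_zero_or_pos z with h | h
    · rw [h] at hz; omega
    · exact h
  exact ⟨x, y, z, t, hx', hy', hz', ht', hxy, e1, e2⟩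

end Pool.Agent.T6.H10.CT
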