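import Mathlib

/-!
The local conditions.
-/

set_option autoImplicit false

namespace Pool.Agent.T6.H10.CT

/-- `((x + 4 v² Y)⁴ - x⁴) / (4 v)²` -/
def N (x v Y : ℤ) : ℤ := x ^ 3 * Y + 6 * x ^ 2 * v ^ 2 * Y ^ 2 + 16 * x * v ^ 4 * Y ^ 3 +
  16 * v ^ 6 * Y ^ 4

/-- `(g² (x + 4 v² Y)⁴ - z⁴) / (4 v)²`, where `κ = (g² x⁴ - z⁴) / (4 v)²` -/
def F (κ g x v Y : ℤ) : ℤ := κ + g ^ 2 * N x v Y

theorem F_eq {κ g x v z : ℤ} (h : (4 * v) ^ 2 * κ + z ^ 4 = g ^ 2 * x ^ 4) (Y : ℤ) :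
    (4 * v) ^ 2 * F κ g x v Y + z ^ 4 = g ^ 2 * (x + 4 * v ^ 2 * Y) ^ 4 := by
  unfold F N; linear_combination h

theorem F_congr {q κ g x v Y Y' : ℤ} (h : q ∣ Y - Y') : q ∣ F κ g x v Y - F κ g x v Y' := by
  have e : F κ g x v Y - F κ g x v Y' = (Y - Y') * (g ^ 2 * (x ^ 3 + 6 * x ^ 2 * v ^ 2 * (Y + Y') +
      16 * x * v ^ 4 * (Y ^ 2 + Y * Y' + Y' ^ 2) +
      16 * v ^ 6 * (Y ^ 3 + Y ^ 2 * Y' + Y * Y' ^ 2 + Y' ^ 3))) := by
    unfold F N; ring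
  rw [e]
  exact h.mul_right _

/-- prime not dividing `2 v`: prescribe `X` modulo `p²` -/
theorem exists_Y {p : ℕ} (hp : p.Prime) (hp2 : p ≠ 2) {x₀ v : ℤ} (hv : ¬ (p : ℤ) ∣ v) (x : ℤ) :
    ∃ Y : ℤ, (p : ℤ) ^ 2 ∣ x₀ + 4 * v ^ 2 * Y - x := by
  have hpp : Prime (p : ℤ) := Nat.prime_iff_prime_int.1 hp
  have h4 : ¬ (p : ℤ) ∣ 4 * v ^ 2 := by
    intro h
    rcases hpp.dvd_or_dvd h with h1 | h1
    · have h2 : p ∣ 2 ^ 2 := by
        have : (p : ℤ) ∣ ((2 ^ 2 : ℕ) : ℤ) := h1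
        exact_mod_cast this
      exact hp2 ((Nat.prime_dvd_prime_iff_eq hp Nat.prime_two).1 (hp.dvd_of_dvd_pow h2))
    · exact hv (hpp.dvd_of_dvd_pow h1)
  have hc : IsCoprime ((p : ℤ) ^ 2) (4 * v ^ 2) :=
    IsCoprime.pow_left ((Prime.coprime_iff_not_dvd hpp).2 h4)
  obtain ⟨a, b, hab⟩ := hc
  refine ⟨b * (x - x₀), ⟨-a * (x - x₀), ?_⟩⟩
  linear_combination (x - x₀) * hab

theorem loc_odd {p : ℕ} (hp : p.Prime) (hp2 : p ≠ 2) {z t v δ g κ x₀ : ℤ}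
    (he : z ^ 4 = t ^ 4 + δ * (4 * v) ^ 2) (hzv : IsCoprime z v)
    (hgz : IsCoprime g z) (hgt : IsCoprime g t) (hκ : (4 * v) ^ 2 * κ + z ^ 4 = g ^ 2 * x₀ ^ 4) :
    ∃ Y : ℤ, ¬ (p : ℤ) ^ 2 ∣ F κ g x₀ v Y ∧ ¬ (p : ℤ) ^ 2 ∣ F κ g x₀ v Y + δ := by
  have hpp : Prime (p : ℤ) := Nat.prime_iff_prime_int.1 hp
  have hp1 : (p : ℤ) ∣ (p : ℤ) ^ 2 := dvd_pow_self _ two_ne_zero
  have n2 : ∀ a b : ℤ, IsCoprime a b → (p : ℤ) ∣ a → (p : ℤ) ∣ b → False := fun a b hab h1 h2 =>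
    hpp.not_isUnit (hab.isUnit_of_dvd' h1 h2)
  have hp2' : ¬ (p : ℤ) ∣ 2 := by
    intro h
    have : p ∣ 2 := by exact_mod_cast h
    exact hp2 ((Nat.prime_dvd_prime_iff_eq hp Nat.prime_two).1 this)
  have hp4' : ¬ (p : ℤ) ∣ 4 := by
    intro h
    have : (p : ℤ) ∣ 2 ^ 2 := h
    exact hp2' (hpp.dvd_of_dvd_pow this)
  by_cases hv : (p : ℤ) ∣ v
  · have hz : ¬ (p : ℤ) ∣ z := fun h => n2 z v hzv h hv
    have hgx : ¬ (p : ℤ) ∣ g ^ 2 * x₀ ^ 4 := by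
      intro h
      apply hz
      have h1 : (p : ℤ) ∣ (4 * v) ^ 2 * κ := (dvd_pow (hv.mul_left 4) two_ne_zero).mul_right _
      have e : z ^ 4 = g ^ 2 * x₀ ^ 4 - (4 * v) ^ 2 * κ := by rw [← hκ]; ring
      exact hpp.dvd_of_dvd_pow (e ▸ dvd_sub h h1)
    set w := g ^ 2 * x₀ ^ 3 with hw
    have hw0 : ¬ (p : ℤ) ∣ w := by
      intro h
      apply hgx
      have e : g ^ 2 * x₀ ^ 4 = w * x₀ := by rw [hw]; ring
      rw [e]; exact h.mul_right _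
    have hFY : ∀ Y : ℤ, (p : ℤ) ∣ F κ g x₀ v Y - (κ + w * Y) := by
      intro Y
      obtain ⟨m, hm⟩ := hv
      exact ⟨g ^ 2 * (6 * x₀ ^ 2 * v * m * Y ^ 2 + 16 * x₀ * v ^ 3 * m * Y ^ 3 +
          16 * v ^ 5 * m * Y ^ 4), by
        unfold F N
        rw [hw]
        linear_combination (g ^ 2 * (6 * x₀ ^ 2 * v * Y ^ 2 + 16 * x₀ * v ^ 3 * Y ^ 3 +
          16 * v ^ 5 * Y ^ 4)) * hm⟩
    -- it is enough that `κ + w Y` and `κ + w Y + δ` are prime to `p`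
    have red : ∀ Y : ℤ, ¬ (p : ℤ) ∣ κ + w * Y → ¬ (p : ℤ) ∣ κ + w * Y + δ →
        ¬ (p : ℤ) ^ 2 ∣ F κ g x₀ v Y ∧ ¬ (p : ℤ) ^ 2 ∣ F κ g x₀ v Y + δ := by
      intro Y h1 h2
      constructor
      · intro h
        apply h1
        have e : κ + w * Y = F κ g x₀ v Y - (F κ g x₀ v Y - (κ + w * Y)) := by ring
        rw [e]; exact dvd_sub (hp1.trans h) (hFY Y)
      · intro h
        apply h2
        have e : κ + w * Y + δ = F κ g x₀ v Y + δ - (F κ g x₀ v Y - (κ + w * Y)) := by ring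
        rw [e]; exact dvd_sub (hp1.trans h) (hFY Y)
    -- two different `Y` in `{0, 1, 2}` cannot be excluded by the same condition
    have diff : ∀ c Y Y' : ℤ, (p : ℤ) ∣ κ + w * Y + c → (p : ℤ) ∣ κ + w * Y' + c →
        (p : ℤ) ∣ Y - Y' := by
      intro c Y Y' h1 h2
      have h3 : (p : ℤ) ∣ w * (Y - Y') := by
        have e : w * (Y - Y') = (κ + w * Y + c) - (κ + w * Y' + c) := by ring
        rw [e]; exact dvd_sub h1 h2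
      exact (hpp.dvd_or_dvd h3).resolve_left hw0
    have h01 : ¬ (p : ℤ) ∣ (0 : ℤ) - 1 := by
      intro h
      have : (p : ℤ) ∣ 1 := by simpa using h
      exact hpp.not_isUnit (isUnit_of_dvd_one this)
    have h12 : ¬ (p : ℤ) ∣ (1 : ℤ) - 2 := by
      intro h
      have : (p : ℤ) ∣ 1 := by
        have h' : (p : ℤ) ∣ -1 := by simpa using h
        simpa using h'
      exact hpp.not_isUnit (isUnit_of_dvd_one this)
    have h02 : ¬ (p : ℤ) ∣ (0 : ℤ) - 2 := by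
      intro h
      apply hp2'
      have h' : (p : ℤ) ∣ -2 := by simpa using h
      simpa using h'
    by_contra hcon
    push Not at hcon
    have ex : ∀ Y : ℤ, (p : ℤ) ∣ κ + w * Y + 0 ∨ (p : ℤ) ∣ κ + w * Y + δ := by
      intro Y
      by_contra h
      push Not at h
      obtain ⟨h1, h2⟩ := h
      rw [add_zero] at h1
      obtain ⟨h3, h4⟩ := red Y h1 h2
      exact h4 (hcon Y h3)
    rcases ex 0 with a | a <;> rcases ex 1 with b | b <;> rcases ex 2 with c | c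
    · exact h01 (diff _ _ _ a b)
    · exact h01 (diff _ _ _ a b)
    · exact h02 (diff _ _ _ a c)
    · exact h12 (diff _ _ _ b c)
    · exact h12 (diff _ _ _ b c)
    · exact h02 (diff _ _ _ a c)
    · exact h01 (diff _ _ _ a b)
    · exact h01 (diff _ _ _ a b)
  · -- reduce to the fourth powers
    have red : ∀ x Y : ℤ, (p : ℤ) ^ 2 ∣ x₀ + 4 * v ^ 2 * Y - x →
        ¬ (p : ℤ) ^ 2 ∣ g ^ 2 * x ^ 4 - z ^ 4 → ¬ (p : ℤ) ^ 2 ∣ g ^ 2 * x ^ 4 - t ^ 4 →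
        ¬ (p : ℤ) ^ 2 ∣ F κ g x₀ v Y ∧ ¬ (p : ℤ) ^ 2 ∣ F κ g x₀ v Y + δ := by
      intro x Y hY h1 h2
      have h3 : (p : ℤ) ^ 2 ∣ g ^ 2 * ((x₀ + 4 * v ^ 2 * Y) ^ 4 - x ^ 4) :=
        (hY.trans (sub_dvd_pow_sub_pow _ _ 4)).mul_left _
      have hF := F_eq hκ Y
      constructor
      · intro h
        apply h1
        have h4 := dvd_sub (h.mul_left ((4 * v) ^ 2)) h3
        have e : g ^ 2 * x ^ 4 - z ^ 4 = (4 * v) ^ 2 * F κ g x₀ v Y -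
            g ^ 2 * ((x₀ + 4 * v ^ 2 * Y) ^ 4 - x ^ 4) := by
          linear_combination (-1 : ℤ) * hF
        rw [e]; exact h4
      · intro h
        apply h2
        have h4 := dvd_sub (h.mul_left ((4 * v) ^ 2)) h3
        have e : g ^ 2 * x ^ 4 - t ^ 4 = (4 * v) ^ 2 * (F κ g x₀ v Y + δ) -
            g ^ 2 * ((x₀ + 4 * v ^ 2 * Y) ^ 4 - x ^ 4) := by
          linear_combination (-1 : ℤ) * hF + he
        rw [e]; exact h4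
    -- modulo `p` only
    have unit1 : ∀ x c : ℤ, (p : ℤ) ∣ g ^ 2 * x ^ 4 → ¬ (p : ℤ) ∣ c →
        ¬ (p : ℤ) ^ 2 ∣ g ^ 2 * x ^ 4 - c ^ 4 := by
      intro x c h1 h2 h
      apply h2
      have h3 : (p : ℤ) ∣ c ^ 4 := by
        have e : c ^ 4 = g ^ 2 * x ^ 4 - (g ^ 2 * x ^ 4 - c ^ 4) := by ring
        rw [e]; exact dvd_sub h1 (hp1.trans h)
      exact hpp.dvd_of_dvd_pow h3
    have unit2 : ∀ x c : ℤ, ¬ (p : ℤ) ∣ g ^ 2 * x ^ 4 → (p : ℤ) ∣ c →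
        ¬ (p : ℤ) ^ 2 ∣ g ^ 2 * x ^ 4 - c ^ 4 := by
      intro x c h1 h2 h
      apply h1
      have e : g ^ 2 * x ^ 4 = (g ^ 2 * x ^ 4 - c ^ 4) + c ^ 4 := by ring
      rw [e]; exact dvd_add (hp1.trans h) (dvd_pow h2 four_ne_zero)
    by_cases hg : (p : ℤ) ∣ g
    · have hz : ¬ (p : ℤ) ∣ z := fun h => n2 g z hgz hg h
      have ht : ¬ (p : ℤ) ∣ t := fun h => n2 g t hgt hg h
      obtain ⟨Y, hY⟩ := exists_Y hp hp2 (x₀ := x₀) hv 0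
      have hg2 : (p : ℤ) ∣ g ^ 2 * (0 : ℤ) ^ 4 := by simp
      exact ⟨Y, red _ _ hY (unit1 _ _ hg2 hz) (unit1 _ _ hg2 ht)⟩
    · by_cases hz0 : (p : ℤ) ∣ z ∨ (p : ℤ) ∣ t
      · -- one of `1`, `1 + p`
        have two : ∀ c : ℤ, ∃ x : ℤ, ¬ (p : ℤ) ∣ g ^ 2 * x ^ 4 ∧
            ¬ (p : ℤ) ^ 2 ∣ g ^ 2 * x ^ 4 - c ^ 4 := by
          intro c
          by_cases h1 : (p : ℤ) ^ 2 ∣ g ^ 2 * 1 ^ 4 - c ^ 4
          · refine ⟨1 + p, fun h => ?_, fun h => ?_⟩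
            · rcases hpp.dvd_or_dvd h with h3 | h3
              · exact hg (hpp.dvd_of_dvd_pow h3)
              · have h4 := hpp.dvd_of_dvd_pow h3
                have h5 : (p : ℤ) ∣ 1 := (dvd_add_left (dvd_refl _)).1 h4
                exact hpp.not_isUnit (isUnit_of_dvd_one h5)
            · have h2 := dvd_sub h h1
              obtain ⟨k, hk⟩ := h2
              have hp0 : (p : ℤ) ≠ 0 := by exact_mod_cast hp.ne_zero
              have h3 : (p : ℤ) * (4 * g ^ 2) = p * (p * (k - g ^ 2 * (6 + 4 * p + p ^ 2))) := by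
                linear_combination hk
              have h4 : (p : ℤ) ∣ 4 * g ^ 2 := ⟨_, mul_left_cancel₀ hp0 h3⟩
              rcases hpp.dvd_or_dvd h4 with h5 | h5
              · exact hp4' h5
              · exact hg (hpp.dvd_of_dvd_pow h5)
          · refine ⟨1, fun h => ?_, h1⟩
            rw [one_pow, mul_one] at h
            exact hg (hpp.dvd_of_dvd_pow h)
        rcases hz0 with hz | ht
        · obtain ⟨x, hx1, hx2⟩ := two t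
          obtain ⟨Y, hY⟩ := exists_Y hp hp2 (x₀ := x₀) hv x
          exact ⟨Y, red _ _ hY (unit2 _ _ hx1 hz) hx2⟩
        · obtain ⟨x, hx1, hx2⟩ := two z
          obtain ⟨Y, hY⟩ := exists_Y hp hp2 (x₀ := x₀) hv x
          exact ⟨Y, red _ _ hY hx2 (unit2 _ _ hx1 ht)⟩
      · push Not at hz0
        obtain ⟨Y, hY⟩ := exists_Y hp hp2 (x₀ := x₀) hv 0
        have hg2 : (p : ℤ) ∣ g ^ 2 * (0 : ℤ) ^ 4 := by simp
        exact ⟨Y, red _ _ hY (unit1 _ _ hg2 hz0.1) (unit1 _ _ hg2 hz0.2)⟩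

theorem dec8 : ∀ z < 8, ∀ v < 8, ∀ r < 8, z % 2 = 1 →
    ∃ Y < 8, (z ^ 3 * Y + 6 * z ^ 2 * v ^ 2 * Y ^ 2) % 8 = r := by decide

theorem loc_two {z v : ℕ} (hz : Odd z) (r : ℕ) :
    ∃ Y : ℕ, (8 : ℤ) ∣ N z v Y - r := by
  obtain ⟨Y, -, hY⟩ := dec8 (z % 8) (Nat.mod_lt _ (by norm_num)) (v % 8)
    (Nat.mod_lt _ (by norm_num)) (r % 8) (Nat.mod_lt _ (by norm_num)) (by
      have := Nat.odd_iff.1 hz; omega)
  refine ⟨Y, ?_⟩
  have h1 : (((z % 8 : ℕ) ^ 3 * Y + 6 * (z % 8 : ℕ) ^ 2 * (v % 8 : ℕ) ^ 2 * Y ^ 2 : ℕ) : ZMod 8) =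
      ((r % 8 : ℕ) : ZMod 8) := by
    have h2 := congrArg (fun n : ℕ => (n : ZMod 8)) hY
    simp only [ZMod.natCast_mod] at h2
    rw [h2]
    simp
  push_cast at h1
  simp only [ZMod.natCast_mod] at h1
  have h3 : ((N z v Y - r : ℤ) : ZMod 8) = 0 := by
    unfold N
    push_cast
    have h16 : (16 : ZMod 8) = 0 := by decide
    rw [h16]
    linear_combination h1
  exact (ZMod.intCast_zmod_eq_zero_iff_dvd _ 8).1 h3

/-- the two-adic condition: `g (κ + g² N) ≡ r` modulo `8` -/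
theorem loc_two' {x₀ v g : ℕ} (hx : Odd x₀) (hg : Odd g) (κ : ℤ) (r : ℕ) :
    ∃ Y : ℕ, (8 : ℤ) ∣ g * F κ g x₀ v Y - r := by
  -- target `r' ≡ g r - κ` modulo 8
  obtain ⟨r', hr'⟩ : ∃ r' : ℕ, (8 : ℤ) ∣ (r' : ℤ) - (g * r - κ) := by
    refine ⟨((g * r - κ) % 8 : ℤ).toNat, ?_⟩
    rw [Int.toNat_of_nonneg (Int.emod_nonneg _ (by norm_num))]
    rw [← Int.dvd_neg, neg_sub]
    exact Int.dvd_self_sub_emod
  obtain ⟨Y, hY⟩ := loc_two (v := v) hx r'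
  refine ⟨Y, ?_⟩
  have hg8 : (8 : ℤ) ∣ (g : ℤ) ^ 2 - 1 := by
    obtain ⟨i, rfl⟩ := hg
    obtain ⟨k, hk⟩ := Nat.even_mul_succ_self i
    refine ⟨k, ?_⟩
    have hk' : (i : ℤ) * (i + 1) = k + k := by exact_mod_cast hk
    push_cast
    linear_combination 4 * hk'
  have h1 : (8 : ℤ) ∣ g * (g ^ 2 - 1) * N x₀ v Y := (hg8.mul_left _).mul_right _
  have h2 : (8 : ℤ) ∣ (g : ℤ) * (N x₀ v Y - r') := hY.mul_left _
  have h3 : (8 : ℤ) ∣ (g : ℤ) * (r' - (g * r - κ)) := hr'.mul_left _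
  have h4 : (8 : ℤ) ∣ ((g : ℤ) ^ 2 - 1) * r := hg8.mul_right _
  have e : (g : ℤ) * F κ g x₀ v Y - r = g * (g ^ 2 - 1) * N x₀ v Y + g * (N x₀ v Y - r') +
      g * (r' - (g * r - κ)) + ((g : ℤ) ^ 2 - 1) * r := by
    unfold F; ring
  rw [e]
  exact dvd_add (dvd_add (dvd_add h1 h2) h3) h4

end Pool.Agent.T6.H10.CT
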