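import Mathlib

/-!
A sieve for the squares of primes in the values of `g X² + c²` and `g X² - c²`.
-/

set_option autoImplicit false

open Finset

namespace Pool.Agent.T6.H10.CT

theorem cls {M q : ℕ} (hq : 0 < q) (S : Finset ℕ) (hS : S ⊆ Ico M (2 * M))
    (h : ∀ u ∈ S, ∀ u' ∈ S, u % q = u' % q) : S.card ≤ M / q + 2 := by
  have h1 : S.card ≤ (Icc (M / q) (M / q + M / q + 1)).card := by
    refine card_le_card_of_injOn (fun u => u / q) ?_ ?_
    · intro u hu
      have h2 := mem_Ico.1 (hS hu)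
      refine mem_coe.2 (mem_Icc.2 ⟨Nat.div_le_div_right h2.1, ?_⟩)
      have h3 : u / q < M / q + M / q + 2 := by
        rw [Nat.div_lt_iff_lt_mul hq]
        have h4 : M < (M / q + 1) * q := by
          rw [← Nat.div_lt_iff_lt_mul hq]; omega
        nlinarith
      show u / q ≤ _
      omega
    · intro u hu u' hu' he
      have h2 := h u hu u' hu'
      have h3 : u / q = u' / q := he
      rw [← Nat.div_add_mod u q, ← Nat.div_add_mod u' q, h2, h3]
  rw [Nat.card_Icc] at h1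
  generalize M / q = m at h1 ⊢
  omega

/-- `X_u = a + b u` -/
def lin (a b : ℕ) (u : ℕ) : ℤ := a + b * u

theorem mod_of_dvd {p b : ℕ} (hp : p.Prime) (hpb : ¬ p ∣ b) {a u u' : ℕ}
    (h : (p : ℤ) ^ 2 ∣ lin a b u - lin a b u') : u % (p ^ 2) = u' % (p ^ 2) := by
  unfold lin at h
  have e : (a : ℤ) + b * u - (a + b * u') = (b : ℤ) * ((u : ℤ) - u') := by ring
  rw [e] at h
  have h2 : IsCoprime ((p : ℤ) ^ 2) (b : ℤ) := by
    refine IsCoprime.pow_left ?_
    rw [Nat.isCoprime_iff_coprime]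
    exact (Nat.Prime.coprime_iff_not_dvd hp).2 hpb
  have h3 := h2.dvd_of_dvd_mul_left h
  have h4 : ((p ^ 2 : ℕ) : ℤ) ∣ (u : ℤ) - u' := by push_cast; exact h3
  exact ((Nat.modEq_iff_dvd.2 h4).symm)

theorem cls_lin {M p a b : ℕ} (hp : p.Prime) (hpb : ¬ p ∣ b) (e : ℤ) :
    ((Ico M (2 * M)).filter fun u => (p : ℤ) ^ 2 ∣ lin a b u + e).card ≤ M / p ^ 2 + 2 := by
  refine cls (pow_pos hp.pos 2) _ (filter_subset _ _) fun u hu u' hu' => ?_
  have h1 := (mem_filter.1 hu).2
  have h2 := (mem_filter.1 hu').2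
  refine mod_of_dvd (a := a) hp hpb ?_
  have e1 : lin a b u - lin a b u' = (lin a b u + e) - (lin a b u' + e) := by ring
  rw [e1]
  exact dvd_sub h1 h2

theorem cls_quad {M p a b g : ℕ} (hp : p.Prime) (hp2 : p ≠ 2) (hpb : ¬ p ∣ b) (hpg : ¬ p ∣ g)
    {e : ℤ} (hpe : ¬ (p : ℤ) ∣ e) :
    ((Ico M (2 * M)).filter fun u => (p : ℤ) ^ 2 ∣ g * lin a b u ^ 2 + e).card ≤
      2 * (M / p ^ 2 + 2) := by
  classical
  set S := (Ico M (2 * M)).filter fun u => (p : ℤ) ^ 2 ∣ g * lin a b u ^ 2 + e with hS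
  rcases S.eq_empty_or_nonempty with h0 | ⟨u0, hu0⟩
  · rw [h0]; simp
  have h0 := (mem_filter.1 hu0).2
  have hpp : Prime (p : ℤ) := Nat.prime_iff_prime_int.1 hp
  have hX0 : ¬ (p : ℤ) ∣ lin a b u0 := by
    intro h
    apply hpe
    have h2 : (p : ℤ) ∣ g * lin a b u0 ^ 2 + e := (dvd_pow_self _ two_ne_zero).trans h0
    exact (dvd_add_right ((dvd_pow h two_ne_zero).mul_left _)).1 h2
  have hcg : IsCoprime ((p : ℤ) ^ 2) (g : ℤ) := by
    refine IsCoprime.pow_left ?_
    rw [Nat.isCoprime_iff_coprime]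
    exact (Nat.Prime.coprime_iff_not_dvd hp).2 hpg
  have hsub : S ⊆ ((Ico M (2 * M)).filter fun u => (p : ℤ) ^ 2 ∣ lin a b u + (-lin a b u0)) ∪
      ((Ico M (2 * M)).filter fun u => (p : ℤ) ^ 2 ∣ lin a b u + lin a b u0) := by
    intro u hu
    have h1 := mem_filter.1 hu
    have h2 : (p : ℤ) ^ 2 ∣ (lin a b u + (-lin a b u0)) * (lin a b u + lin a b u0) := by
      have h3 : (p : ℤ) ^ 2 ∣ g * ((lin a b u + (-lin a b u0)) * (lin a b u + lin a b u0)) := by
        have e1 : (g : ℤ) * ((lin a b u + (-lin a b u0)) * (lin a b u + lin a b u0)) =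
            (g * lin a b u ^ 2 + e) - (g * lin a b u0 ^ 2 + e) := by ring
        rw [e1]
        exact dvd_sub h1.2 h0
      exact hcg.dvd_of_dvd_mul_left h3
    rw [mem_union, mem_filter, mem_filter]
    by_cases h3 : (p : ℤ) ∣ lin a b u + (-lin a b u0)
    · left
      refine ⟨h1.1, ?_⟩
      have h4 : ¬ (p : ℤ) ∣ lin a b u + lin a b u0 := by
        intro h5
        have h6 : (p : ℤ) ∣ 2 * lin a b u0 := by
          have e1 : 2 * lin a b u0 = (lin a b u + lin a b u0) - (lin a b u + (-lin a b u0)) := by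
            ring
          rw [e1]
          exact dvd_sub h5 h3
        rcases hpp.dvd_or_dvd h6 with h7 | h7
        · have h8 : p ∣ 2 := by exact_mod_cast h7
          exact hp2 ((Nat.prime_dvd_prime_iff_eq hp Nat.prime_two).1 h8)
        · exact hX0 h7
      have h5 : IsCoprime ((p : ℤ) ^ 2) (lin a b u + lin a b u0) :=
        IsCoprime.pow_left ((Prime.coprime_iff_not_dvd hpp).2 h4)
      exact h5.dvd_of_dvd_mul_right h2
    · right
      refine ⟨h1.1, ?_⟩
      have h5 : IsCoprime ((p : ℤ) ^ 2) (lin a b u + (-lin a b u0)) :=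
        IsCoprime.pow_left ((Prime.coprime_iff_not_dvd hpp).2 h3)
      exact h5.dvd_of_dvd_mul_left h2
  calc S.card ≤ _ := card_le_card hsub
    _ ≤ _ := card_union_le _ _
    _ ≤ (M / p ^ 2 + 2) + (M / p ^ 2 + 2) := add_le_add (cls_lin hp hpb _) (cls_lin hp hpb _)
    _ = _ := by ring

/-- the spacing of the solutions of `g X² ± c² = m p²` -/
theorem spacing {g c m : ℕ} (hg : 0 < g) {e X X' p p' : ℤ} (he : e = (c : ℤ) ^ 2 ∨ e = -(c : ℤ) ^ 2)
    (hX : 2 * (c : ℤ) < X) (hXX : X < X') (hp : 0 < p) (hp' : 0 < p')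
    (hc : 0 < c) (h : g * X ^ 2 + e = m * p ^ 2) (h' : g * X' ^ 2 + e = m * p' ^ 2) :
    X ≤ c * (X' - X) := by
  have hc' : (0 : ℤ) < c := by exact_mod_cast hc
  have hg' : (1 : ℤ) ≤ g := by exact_mod_cast hg
  have hX0 : 0 < X := by linarith
  set s : ℤ := m * p * p' with hs
  have hs0 : 0 ≤ s := by positivity
  set d := X' - X with hd
  have hd0 : 1 ≤ d := by omega
  set A := g * (X * X') + e with hA
  have e1 : s ^ 2 = A ^ 2 + g * e * d ^ 2 := by
    have : s ^ 2 = (g * X ^ 2 + e) * (g * X' ^ 2 + e) := by rw [h, h', hs]; ring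
    rw [this, hA, hd]; ring
  have hc2 : (0 : ℤ) < (c : ℤ) ^ 2 := by positivity
  have hXX' : X * X' = X ^ 2 + X * d := by rw [hd]; ring
  have hX2 : 4 * (c : ℤ) ^ 2 ≤ X ^ 2 := by nlinarith
  have hel : -(c : ℤ) ^ 2 ≤ e := by rcases he with h0 | h0 <;> rw [h0] <;> linarith
  have hXd : X ≤ X * d := by nlinarith
  have hA0 : g * X ^ 2 + g * X - (c : ℤ) ^ 2 ≤ A := by
    rw [hA, hXX']
    have : (g : ℤ) * X ≤ g * (X * d) := mul_le_mul_of_nonneg_left hXd (by linarith)
    nlinarith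
  have hgX : X ^ 2 ≤ g * X ^ 2 := by nlinarith [sq_nonneg X]
  have hgX' : X ≤ g * X := by nlinarith
  have hApos : 0 < A := by nlinarith
  have hdd : 0 < d ^ 2 := by positivity
  have hpos : 0 < (g : ℤ) * (c : ℤ) ^ 2 * d ^ 2 := by positivity
  have key : 2 * A - 1 ≤ g * (c : ℤ) ^ 2 * d ^ 2 := by
    rcases he with h0 | h0
    · rw [h0] at e1
      have h1 : A < s := by
        have : A ^ 2 < s ^ 2 := by rw [e1]; linarith
        exact lt_of_pow_lt_pow_left₀ 2 hs0 this
      have h2 : (A + 1) ^ 2 ≤ s ^ 2 := pow_le_pow_left₀ (by linarith) h1 2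
      nlinarith
    · rw [h0] at e1
      have e2 : s ^ 2 = A ^ 2 - g * (c : ℤ) ^ 2 * d ^ 2 := by rw [e1]; ring
      have h1 : s < A := by
        have : s ^ 2 < A ^ 2 := by rw [e2]; linarith
        exact lt_of_pow_lt_pow_left₀ 2 hApos.le this
      have h2 : s ^ 2 ≤ (A - 1) ^ 2 := pow_le_pow_left₀ hs0 (by linarith [Int.add_one_le_iff.2 h1]) 2
      nlinarith
  have h3 : g * X ^ 2 ≤ g * ((c : ℤ) * d) ^ 2 := by
    have : (g : ℤ) * ((c : ℤ) * d) ^ 2 = g * (c : ℤ) ^ 2 * d ^ 2 := by ring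
    rw [this]
    nlinarith
  have h4 : X ^ 2 ≤ ((c : ℤ) * d) ^ 2 := le_of_mul_le_mul_left h3 (by linarith)
  exact le_of_sq_le_sq' h4 (by positivity)
where
  le_of_sq_le_sq' {x y : ℤ} (h : x ^ 2 ≤ y ^ 2) (hy : 0 ≤ y) : x ≤ y := by
    by_contra hcon
    have h1 : y < x := not_le.1 hcon
    nlinarith

open Classical in
theorem card_m {M a b g c m : ℕ} (hb : 0 < b) (hc : 0 < c) (hg : 0 < g) (hM : 2 * c < M) {e : ℤ}
    (he : e = (c : ℤ) ^ 2 ∨ e = -(c : ℤ) ^ 2) :
    ((Ico M (2 * M)).filter fun u => ∃ p : ℕ, 0 < p ∧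
      g * lin a b u ^ 2 + e = m * (p : ℤ) ^ 2).card ≤ c := by
  have hM0 : 0 < M := by omega
  refine le_of_le_of_eq (b := (range c).card) ?_ (card_range c)
  refine card_le_card_of_injOn (fun u => c * (u - M) / M) ?_ ?_
  · intro u hu
    have h1 := mem_Ico.1 (mem_filter.1 hu).1
    refine mem_coe.2 (mem_range.2 ?_)
    show c * (u - M) / M < c
    rw [Nat.div_lt_iff_lt_mul hM0]
    exact Nat.mul_lt_mul_of_pos_left (by omega) hc
  · have key : ∀ u u' : ℕ, M ≤ u → u < u' →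
        (∃ p : ℕ, 0 < p ∧ g * lin a b u ^ 2 + e = m * (p : ℤ) ^ 2) →
        (∃ p : ℕ, 0 < p ∧ g * lin a b u' ^ 2 + e = m * (p : ℤ) ^ 2) →
        c * (u - M) / M < c * (u' - M) / M := by
      rintro u u' hu huu ⟨p, hp, h⟩ ⟨p', hp', h'⟩
      have hb' : (1 : ℤ) ≤ b := by exact_mod_cast hb
      have hu' : (M : ℤ) ≤ u := by exact_mod_cast hu
      have hMc : 2 * (c : ℤ) < M := by exact_mod_cast hM
      have ha0 : (0 : ℤ) ≤ a := by positivity
      have h3 : (b : ℤ) * M ≤ lin a b u := by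
        unfold lin
        have := mul_le_mul_of_nonneg_left hu' (by linarith : (0 : ℤ) ≤ b)
        linarith
      have hX : 2 * (c : ℤ) < lin a b u := by
        have : (M : ℤ) ≤ b * M := by nlinarith
        linarith
      have hXX : lin a b u < lin a b u' := by
        unfold lin
        have : (b : ℤ) * u < b * u' := by
          have : (u : ℤ) < u' := by exact_mod_cast huu
          exact mul_lt_mul_of_pos_left this (by linarith)
        linarith
      have h1 := spacing hg he hX hXX (by exact_mod_cast hp) (by exact_mod_cast hp') hc h h'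
      have h2 : lin a b u' - lin a b u = b * ((u' : ℤ) - u) := by unfold lin; ring
      rw [h2] at h1
      have h4 : (b : ℤ) * M ≤ b * (c * ((u' : ℤ) - u)) := by linarith
      have h5 : (M : ℤ) ≤ c * ((u' : ℤ) - u) := le_of_mul_le_mul_left h4 (by linarith)
      have h6 : c * (u - M) + M ≤ c * (u' - M) := by
        zify [hu, (by omega : M ≤ u')]
        linarith
      have h7 : (c * (u - M) + M) / M ≤ c * (u' - M) / M := Nat.div_le_div_right h6
      rw [Nat.add_div_right _ hM0] at h7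
      omega
    intro u hu u' hu' he
    have h1 := mem_filter.1 hu
    have h2 := mem_filter.1 hu'
    rcases lt_trichotomy u u' with h | h | h
    · exact absurd he (key u u' (mem_Ico.1 h1.1).1 h h1.2 h2.2).ne
    · exact h
    · exact absurd he (key u' u (mem_Ico.1 h2.1).1 h h2.2 h1.2).ne'

end Pool.Agent.T6.H10.CT
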