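import Pool.Agent.T6.H10.CT.D

/-!
The number of the `u` for which the square of a large prime divides `g X² + e`, with parameters.
-/

set_option autoImplicit false

open Finset

namespace Pool.Agent.T6.H10.CT

theorem card_bad' {a b g c P : ℕ} (hb : 0 < b) (hc : 0 < c) (hg : 0 < g) (hP : 64 ≤ P) (hcP : c ≤ P)
    (hgP : g ≤ P) (hbP : ∀ p : ℕ, p.Prime → p ∣ b → p ≤ P) {e : ℤ}
    (he : e = (c : ℤ) ^ 2 ∨ e = -(c : ℤ) ^ 2) {W M : ℕ} (hW : 0 < W) (hM : a + 2 * c + 1 ≤ M) :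
    ∃ σ : ℕ, P * σ ≤ M ∧
      (Bad a b g e P M).card ≤ 2 * (σ + 2 * (M / W)) + 10 * W ^ 2 * g * b ^ 2 * c := by
  classical
  set Cm : ℕ := 10 * W ^ 2 * g * b ^ 2 with hCm
  have hM0 : 0 < M := by omega
  set Z2 := M / W with hZ2
  have hb1 : (1 : ℤ) ≤ b := by exact_mod_cast hb
  have hg1 : (1 : ℤ) ≤ g := by exact_mod_cast hg
  have hc1 : (1 : ℤ) ≤ c := by exact_mod_cast hc
  have hMz : (0 : ℤ) ≤ M := by positivity
  have hlin : ∀ u ∈ Ico M (2 * M), (M : ℤ) ≤ lin a b u ∧ lin a b u ≤ 3 * b * M ∧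
      (c : ℤ) < lin a b u := by
    intro u hu
    have h1 := mem_Ico.1 hu
    have hu1 : (M : ℤ) ≤ u := by exact_mod_cast h1.1
    have hu2 : (u : ℤ) ≤ 2 * M := by exact_mod_cast h1.2.le
    have ha : (a : ℤ) ≤ M := by exact_mod_cast (by omega : a ≤ M)
    have ha0 : (0 : ℤ) ≤ a := by positivity
    have hcM : (c : ℤ) < M := by exact_mod_cast (by omega : c < M)
    unfold lin
    have e1 : (M : ℤ) ≤ b * u := by nlinarith
    refine ⟨by linarith, ?_, by linarith⟩
    have e2 : (b : ℤ) * u ≤ b * (2 * M) := mul_le_mul_of_nonneg_left hu2 (by linarith)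
    have e3 : (M : ℤ) ≤ b * M := by nlinarith
    nlinarith
  have hcM' : (c : ℤ) ≤ b * M := by
    have h1 : c ≤ b * M := (by omega : c ≤ M).trans (Nat.le_mul_of_pos_left M hb)
    exact_mod_cast h1
  have heu : e ≤ (c : ℤ) ^ 2 := by
    have : (0 : ℤ) ≤ (c : ℤ) ^ 2 := by positivity
    rcases he with h | h
    · rw [h]
    · rw [h]; linarith
  have hel : -(c : ℤ) ^ 2 ≤ e := by
    have : (0 : ℤ) ≤ (c : ℤ) ^ 2 := by positivity
    rcases he with h | h
    · rw [h]; linarith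
    · rw [h]
  have hsub : Bad a b g e P M ⊆
      (((Ioc P Z2).filter Nat.Prime).biUnion fun p =>
        ((Ico M (2 * M)).filter fun u => (p : ℤ) ^ 2 ∣ g * lin a b u ^ 2 + e)) ∪
      ((range Cm).biUnion fun m => (Ico M (2 * M)).filter fun u => ∃ p : ℕ, 0 < p ∧
        g * lin a b u ^ 2 + e = m * (p : ℤ) ^ 2) := by
    intro u hu
    obtain ⟨hu1, p, hp, hPp, h⟩ := mem_filter.1 hu
    obtain ⟨g1, g2, g3⟩ := hlin u hu1
    rw [mem_union]
    by_cases hpZ : p ≤ Z2
    · left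
      exact mem_biUnion.2 ⟨p, mem_filter.2 ⟨mem_Ioc.2 ⟨hPp, hpZ⟩, hp⟩, mem_filter.2 ⟨hu1, h⟩⟩
    · right
      obtain ⟨m, hm⟩ := h
      have hpp : (0 : ℤ) < (p : ℤ) ^ 2 := by have := hp.pos; positivity
      have hval : 0 < g * lin a b u ^ 2 + e := by
        have h1 : (c : ℤ) ^ 2 < lin a b u ^ 2 := pow_lt_pow_left₀ g3 (by positivity) two_ne_zero
        have h2 : lin a b u ^ 2 ≤ g * lin a b u ^ 2 := by nlinarith [sq_nonneg (lin a b u)]
        linarith
      have hm0 : 0 ≤ m := by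
        rw [hm] at hval
        exact (pos_of_mul_pos_right hval hpp.le).le
      obtain ⟨m', rfl⟩ := Int.eq_ofNat_of_zero_le hm0
      have hMp : (M : ℤ) < W * p := by
        have : M < W * p := by
          have h0 : M / W < p := not_le.1 hpZ
          have h1 : M < p * W := (Nat.div_lt_iff_lt_mul hW).1 h0
          rw [mul_comm]; exact h1
        exact_mod_cast this
      have hlt : (m' : ℤ) < Cm := by
        by_contra hcon
        have h1 : (Cm : ℤ) ≤ m' := not_lt.1 hcon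
        have h2 : (p : ℤ) ^ 2 * Cm ≤ g * lin a b u ^ 2 + e := by
          rw [hm]; exact mul_le_mul_of_nonneg_left h1 hpp.le
        have h3 : g * lin a b u ^ 2 + e ≤ 10 * g * (b * M) ^ 2 := by
          have h4 : lin a b u ^ 2 ≤ (3 * b * M) ^ 2 :=
            pow_le_pow_left₀ ((Int.natCast_nonneg c).trans g3.le) g2 2
          have h5 : (c : ℤ) ^ 2 ≤ (b * M) ^ 2 := pow_le_pow_left₀ (by positivity) hcM' 2
          have h6 : (g : ℤ) * lin a b u ^ 2 ≤ g * (3 * b * M) ^ 2 :=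
            mul_le_mul_of_nonneg_left h4 (by linarith)
          have h7 : ((b : ℤ) * M) ^ 2 ≤ g * (b * M) ^ 2 := by nlinarith [sq_nonneg ((b : ℤ) * M)]
          nlinarith
        have h6 : ((M : ℤ)) ^ 2 < (W * p) ^ 2 := pow_lt_pow_left₀ hMp hMz two_ne_zero
        have hb2 : (0 : ℤ) < g * (b : ℤ) ^ 2 := by positivity
        have h7 : (g * (b : ℤ) ^ 2) * (M : ℤ) ^ 2 < (g * (b : ℤ) ^ 2) * (W * p) ^ 2 :=
          mul_lt_mul_of_pos_left h6 hb2
        rw [hCm] at h2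
        push_cast at h2
        nlinarith
      refine mem_biUnion.2 ⟨m', mem_range.2 (by exact_mod_cast hlt), mem_filter.2 ⟨hu1, p,
        hp.pos, ?_⟩⟩
      rw [hm]; ring
  have hpb : ∀ p : ℕ, p.Prime → P < p → ¬ p ∣ b := fun p hp h1 h2 => by
    have := hbP p hp h2; omega
  have hpg : ∀ p : ℕ, P < p → ¬ p ∣ g := fun p h1 h2 => by
    have := Nat.le_of_dvd hg h2; omega
  have hpe : ∀ p : ℕ, p.Prime → P < p → ¬ (p : ℤ) ∣ e := fun p hp h1 h2 => by
    have hpp : Prime (p : ℤ) := Nat.prime_iff_prime_int.1 hp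
    have h3 : (p : ℤ) ∣ (c : ℤ) ^ 2 := by
      rcases he with h | h
      · rw [← h]; exact h2
      · rw [h] at h2; exact (dvd_neg).1 h2
    have h4 : p ∣ c := by exact_mod_cast hpp.dvd_of_dvd_pow h3
    have := Nat.le_of_dvd hc h4
    omega
  set σ2 := ∑ p ∈ Ioc P Z2, M / p ^ 2 with hσ2
  have c2 : ((((Ioc P Z2).filter Nat.Prime).biUnion fun p =>
        ((Ico M (2 * M)).filter fun u => (p : ℤ) ^ 2 ∣ g * lin a b u ^ 2 + e))).card ≤
      2 * (σ2 + 2 * Z2) := by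
    refine card_biUnion_le.trans ?_
    calc _ ≤ ∑ p ∈ (Ioc P Z2).filter Nat.Prime, 2 * (M / p ^ 2 + 2) := by
          refine sum_le_sum fun p hp => ?_
          have h1 := mem_filter.1 hp
          have h3 := (mem_Ioc.1 h1.1).1
          exact cls_quad h1.2 (by omega) (hpb p h1.2 h3) (hpg p h3) (hpe p h1.2 h3)
      _ ≤ ∑ p ∈ Ioc P Z2, 2 * (M / p ^ 2 + 2) :=
          sum_le_sum_of_subset_of_nonneg (filter_subset _ _) fun _ _ _ => Nat.zero_le _
      _ = 2 * (σ2 + 2 * (Ioc P Z2).card) := by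
          rw [← mul_sum, sum_add_distrib, sum_const, smul_eq_mul, hσ2]; ring
      _ ≤ _ := by
          have : (Ioc P Z2).card ≤ Z2 := by rw [Nat.card_Ioc]; exact Nat.sub_le _ _
          omega
  have c3 : (((range Cm).biUnion fun m => (Ico M (2 * M)).filter fun u => ∃ p : ℕ, 0 < p ∧
        g * lin a b u ^ 2 + e = m * (p : ℤ) ^ 2)).card ≤ Cm * c := by
    refine card_biUnion_le.trans ?_
    calc _ ≤ ∑ _m ∈ range Cm, c := sum_le_sum fun m _ => card_m hb hc hg (by omega) he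
      _ = _ := by rw [sum_const, card_range, smul_eq_mul]
  exact ⟨σ2, sumdiv (by omega) Z2 M,
    (card_le_card hsub).trans ((card_union_le _ _).trans (add_le_add c2 c3))⟩

end Pool.Agent.T6.H10.CT
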