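import Pool.Agent.T6.H10.CT.A
import Pool.Agent.T6.H10.CT.B
import Pool.Agent.T6.H10.CT.D

/-!
The residue classes and the prime squares in `g² X⁴ - c⁴`.
-/

set_option autoImplicit false

open Finset

namespace Pool.Agent.T6.H10.CT

theorem sq_factor {p : ℕ} (hp : p.Prime) (hp2 : p ≠ 2) {c g : ℕ} (hc : ¬ p ∣ c) {X : ℤ}
    (h : (p : ℤ) ^ 2 ∣ (g : ℤ) ^ 2 * X ^ 4 - (c : ℤ) ^ 4) :
    (p : ℤ) ^ 2 ∣ g * X ^ 2 + (c : ℤ) ^ 2 ∨ (p : ℤ) ^ 2 ∣ g * X ^ 2 + (-(c : ℤ) ^ 2) := by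
  have hpp : Prime (p : ℤ) := Nat.prime_iff_prime_int.1 hp
  have h2c : ¬ (p : ℤ) ∣ 2 * (c : ℤ) ^ 2 := by
    intro h1
    rcases hpp.dvd_or_dvd h1 with h2 | h2
    · have : p ∣ 2 := by exact_mod_cast h2
      exact hp2 ((Nat.prime_dvd_prime_iff_eq hp Nat.prime_two).1 this)
    · have h3 := hpp.dvd_of_dvd_pow h2
      exact hc (by exact_mod_cast h3)
  have cop : ∀ y : ℤ, ¬ (p : ℤ) ∣ y → IsCoprime ((p : ℤ) ^ 2) y := fun y hy =>
    IsCoprime.pow_left ((Prime.coprime_iff_not_dvd hpp).2 hy)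
  have e : (g : ℤ) ^ 2 * X ^ 4 - (c : ℤ) ^ 4 =
    (g * X ^ 2 + (c : ℤ) ^ 2) * (g * X ^ 2 + (-(c : ℤ) ^ 2)) := by ring
  rw [e] at h
  by_cases hA : (p : ℤ) ∣ g * X ^ 2 + (c : ℤ) ^ 2
  · left
    have hB : ¬ (p : ℤ) ∣ g * X ^ 2 + (-(c : ℤ) ^ 2) := by
      intro hB
      apply h2c
      have e : 2 * (c : ℤ) ^ 2 = (g * X ^ 2 + (c : ℤ) ^ 2) - (g * X ^ 2 + (-(c : ℤ) ^ 2)) := by
        ring
      rw [e]; exact dvd_sub hA hB
    exact (cop _ hB).dvd_of_dvd_mul_right h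
  · right
    exact (cop _ hA).dvd_of_dvd_mul_left h

theorem nat_of_int {q : ℕ} (hq : 0 < q) (Y : ℤ) : ∃ y : ℕ, (q : ℤ) ∣ (y : ℤ) - Y := by
  refine ⟨(Y % q).toNat, ?_⟩
  have hq' : (q : ℤ) ≠ 0 := by exact_mod_cast hq.ne'
  rw [Int.toNat_of_nonneg (Int.emod_nonneg _ hq')]
  rw [← Int.dvd_neg, neg_sub]
  exact Int.dvd_self_sub_emod

/-- a residue class in which all the conditions at the primes `≤ P` hold -/
theorem local_class {z t v δ g x₀ : ℕ} {κ : ℤ} (he : z ^ 4 = t ^ 4 + δ * (4 * v) ^ 2)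
    (hx : Odd x₀) (hg : Odd g) (hzv : Nat.Coprime z v)
    (hgz : Nat.Coprime g z) (hgt : Nat.Coprime g t)
    (hκ : (4 * (v : ℤ)) ^ 2 * κ + (z : ℤ) ^ 4 = (g : ℤ) ^ 2 * (x₀ : ℤ) ^ 4) (r P : ℕ) :
    ∃ k Q : ℕ, 0 < Q ∧ (∀ p : ℕ, p.Prime → p ∣ Q → p ≤ P ∨ p = 2) ∧ ∀ u : ℕ,
      (8 : ℤ) ∣ g * F κ g x₀ v ((k + Q * u : ℕ) : ℤ) - r ∧ ∀ p : ℕ, p.Prime → p ≠ 2 → p ≤ P →
        ¬ (p : ℤ) ^ 2 ∣ F κ g x₀ v ((k + Q * u : ℕ) : ℤ) ∧
        ¬ (p : ℤ) ^ 2 ∣ F κ g x₀ v ((k + Q * u : ℕ) : ℤ) + δ := by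
  classical
  have he' : (z : ℤ) ^ 4 = (t : ℤ) ^ 4 + δ * (4 * v) ^ 2 := by exact_mod_cast he
  have hzv' : IsCoprime (z : ℤ) v := Nat.isCoprime_iff_coprime.2 hzv
  have hgz' : IsCoprime (g : ℤ) z := Nat.isCoprime_iff_coprime.2 hgz
  have hgt' : IsCoprime (g : ℤ) t := Nat.isCoprime_iff_coprime.2 hgt
  have hloc : ∀ p : ℕ, ∃ y : ℕ, p.Prime →
      (p = 2 → (8 : ℤ) ∣ g * F κ g x₀ v y - r) ∧ (p ≠ 2 → ¬ (p : ℤ) ^ 2 ∣ F κ g x₀ v y ∧
        ¬ (p : ℤ) ^ 2 ∣ F κ g x₀ v y + δ) := by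
    intro p
    by_cases hp : p.Prime
    · by_cases hp2 : p = 2
      · obtain ⟨Y, hY⟩ := loc_two' (v := v) hx hg κ r
        exact ⟨Y, fun _ => ⟨fun _ => hY, fun h => absurd hp2 h⟩⟩
      · obtain ⟨Y, hY1, hY2⟩ := loc_odd hp hp2 he' hzv' hgz' hgt' hκ
        obtain ⟨y, hy⟩ := nat_of_int (pow_pos hp.pos 2) Y
        push_cast at hy
        have h1 : (p : ℤ) ^ 2 ∣ F κ g x₀ v y - F κ g x₀ v Y := F_congr hy
        refine ⟨y, fun _ => ⟨fun h => absurd h hp2, fun _ => ⟨fun h => hY1 ?_, fun h => hY2 ?_⟩⟩⟩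
        · have e : F κ g x₀ v Y = F κ g x₀ v y - (F κ g x₀ v y - F κ g x₀ v Y) := by ring
          rw [e]; exact dvd_sub h h1
        · have e : F κ g x₀ v Y + δ = F κ g x₀ v y + δ - (F κ g x₀ v y - F κ g x₀ v Y) := by ring
          rw [e]; exact dvd_sub h h1
    · exact ⟨0, fun h => absurd h hp⟩
  choose y hy using hloc
  set s : Finset ℕ := insert 2 ((range (P + 1)).filter Nat.Prime) with hs
  have hsp : ∀ p ∈ s, p.Prime := by
    intro p hp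
    rw [hs, mem_insert] at hp
    rcases hp with rfl | hp
    · exact Nat.prime_two
    · exact (mem_filter.1 hp).2
  set m : ℕ → ℕ := fun p => if p = 2 then 8 else p ^ 2 with hm
  have hm0 : ∀ p ∈ s, m p ≠ 0 := by
    intro p hp
    simp only [hm]
    split_ifs
    · norm_num
    · exact pow_ne_zero _ (hsp p hp).ne_zero
  have hmp : ∀ p : ℕ, p.Prime → ∀ q : ℕ, q.Prime → q ∣ m p → q = p := by
    intro p hp q hq h
    simp only [hm] at h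
    split_ifs at h with h2
    · have h3 : q ∣ 2 ^ 3 := by norm_num; exact h
      rw [h2]
      exact (Nat.prime_dvd_prime_iff_eq hq Nat.prime_two).1 (hq.dvd_of_dvd_pow h3)
    · exact (Nat.prime_dvd_prime_iff_eq hq hp).1 (hq.dvd_of_dvd_pow h)
  have hco : (s : Set ℕ).Pairwise (Function.onFun Nat.Coprime m) := by
    intro p hp q hq hpq
    refine Nat.coprime_of_dvd fun l hl h1 h2 => hpq ?_
    rw [← hmp p (hsp p hp) l hl h1, ← hmp q (hsp q hq) l hl h2]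
  obtain ⟨k, hk⟩ := Nat.chineseRemainderOfFinset y m s hm0 hco
  refine ⟨k, ∏ p ∈ s, m p, Nat.pos_of_ne_zero (prod_ne_zero_iff.2 hm0), ?_, ?_⟩
  · intro p hp hd
    obtain ⟨q, hq, hpq⟩ := (Prime.dvd_finsetProd_iff (Nat.prime_iff.1 hp) _).1 hd
    have h1 := hmp q (hsp q hq) p hp hpq
    rw [h1]
    rw [hs, mem_insert] at hq
    rcases hq with h | h
    · exact Or.inr h
    · left
      have := mem_range.1 (mem_filter.1 h).1
      omega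
  · intro u
    have hcong : ∀ p ∈ s, ((m p : ℕ) : ℤ) ∣ F κ g x₀ v ((k + (∏ p ∈ s, m p) * u : ℕ) : ℤ) -
        F κ g x₀ v ((y p : ℕ) : ℤ) := by
      intro p hp
      apply F_congr
      have h1 : k + (∏ p ∈ s, m p) * u ≡ y p [MOD m p] := by
        have h2 : (∏ p ∈ s, m p) * u ≡ 0 [MOD m p] :=
          (Nat.modEq_zero_iff_dvd).2 ((dvd_prod_of_mem m hp).mul_right u)
        simpa using (hk p hp).add h2
      exact (Nat.modEq_iff_dvd.1 h1.symm)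
    generalize ((k + (∏ p ∈ s, m p) * u : ℕ) : ℤ) = Yu at hcong ⊢
    constructor
    · have h2s : 2 ∈ s := mem_insert_self _ _
      have h1 := hcong 2 h2s
      have h2 := (hy 2 Nat.prime_two).1 rfl
      have hm2 : m 2 = 8 := by simp [hm]
      rw [hm2] at h1
      have h1' : (8 : ℤ) ∣ g * (F κ g x₀ v Yu - F κ g x₀ v ((y 2 : ℕ) : ℤ)) := by
        exact (by exact_mod_cast h1 : (8 : ℤ) ∣ F κ g x₀ v Yu - F κ g x₀ v ((y 2 : ℕ) : ℤ)).mul_left _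
      have e : (g : ℤ) * F κ g x₀ v Yu - r = g * (F κ g x₀ v Yu - F κ g x₀ v ((y 2 : ℕ) : ℤ)) +
          (g * F κ g x₀ v ((y 2 : ℕ) : ℤ) - r) := by ring
      rw [e]; exact dvd_add h1' h2
    · intro p hp hp2 hpP
      have hps : p ∈ s := mem_insert_of_mem (mem_filter.2 ⟨mem_range.2 (by omega), hp⟩)
      have h1 := hcong p hps
      have hmp2 : m p = p ^ 2 := by simp [hm, hp2]
      rw [hmp2] at h1
      push_cast at h1
      obtain ⟨h2, h3⟩ := (hy p hp).2 hp2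
      constructor
      · intro h
        apply h2
        have e : F κ g x₀ v ((y p : ℕ) : ℤ) = F κ g x₀ v Yu -
          (F κ g x₀ v Yu - F κ g x₀ v ((y p : ℕ) : ℤ)) := by ring
        rw [e]; exact dvd_sub h h1
      · intro h
        apply h3
        have e : F κ g x₀ v ((y p : ℕ) : ℤ) + δ = F κ g x₀ v Yu + δ -
          (F κ g x₀ v Yu - F κ g x₀ v ((y p : ℕ) : ℤ)) := by ring
        rw [e]; exact dvd_sub h h1

end Pool.Agent.T6.H10.CT
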