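import Pool.Agent.T6.H10.CT.E

/-!
Pairs of squarefree congruent numbers `n`, `n + δ g`.
-/

set_option autoImplicit false

open Finset

namespace Pool.Agent.T6.H10.CT

/-- the numbers `n ≤ T` with `n ≡ r` modulo `8` such that `n` and `n + h` are squarefree congruent
numbers -/
def Pairs (h r T : ℕ) : Set ℕ :=
  {n | n ≤ T ∧ n % 8 = r % 8 ∧ Squarefree n ∧ Squarefree (n + h) ∧ Cong n ∧ Cong (n + h)}

theorem pairs_finite (h r T : ℕ) : (Pairs h r T).Finite :=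
  (Set.finite_Iic T).subset fun _ hn => hn.1

/-- the square root of the class of `g` -/
theorem exists_root {g v z s : ℕ} (hg : Squarefree g) (hv : 0 < v) (hz : Odd z)
    (hs : g ≡ s ^ 2 [MOD (4 * v) ^ 2]) :
    Odd g ∧ ∃ (x₀ : ℕ) (κ : ℤ), Odd x₀ ∧
      (4 * (v : ℤ)) ^ 2 * κ + (z : ℤ) ^ 4 = (g : ℤ) ^ 2 * (x₀ : ℤ) ^ 4 := by
  have h4v : 0 < 4 * v := by omega
  have hcs : Nat.Coprime s (4 * v) := by
    refine Nat.coprime_of_dvd fun p hp h1 h2 => ?_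
    have h3 : p ^ 2 ∣ s ^ 2 := pow_dvd_pow_of_dvd h1 2
    have h4 : p ^ 2 ∣ (4 * v) ^ 2 := pow_dvd_pow_of_dvd h2 2
    have h5 : p ^ 2 ∣ g := (Nat.ModEq.dvd_iff hs h4).2 h3
    have h6 := hg p (by rw [← sq]; exact h5)
    exact hp.one_lt.ne' (Nat.isUnit_iff.1 h6)
  have hodd : Odd g := by
    rw [← Nat.not_even_iff_odd]
    intro h
    have h1 : 2 ∣ (4 * v) ^ 2 := ⟨8 * v ^ 2, by ring⟩
    have h2 : 2 ∣ s ^ 2 := (Nat.ModEq.dvd_iff hs h1).1 (even_iff_two_dvd.1 h)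
    have h3 : 2 ∣ s := Nat.prime_two.dvd_of_dvd_pow h2
    have h4 : 2 ∣ 4 * v := ⟨2 * v, by ring⟩
    have h5 := Nat.dvd_gcd h3 h4
    rw [hcs] at h5
    omega
  refine ⟨hodd, ?_⟩
  have hcs2 : Nat.Coprime s ((4 * v) ^ 2) := Nat.Coprime.pow_right 2 hcs
  have h16 : 1 < (4 * v) ^ 2 := by nlinarith
  obtain ⟨i, hi⟩ := Nat.exists_mul_mod_eq_one_of_coprime hcs2 h16
  have hi' : s * i ≡ 1 [MOD (4 * v) ^ 2] := by
    show s * i % (4 * v) ^ 2 = 1 % (4 * v) ^ 2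
    rw [Nat.mod_eq_of_lt h16]; exact hi.2
  have h1 : g ^ 2 * (z * i) ^ 4 ≡ z ^ 4 [MOD (4 * v) ^ 2] := by
    have h2 : g ^ 2 * (z * i) ^ 4 ≡ (s ^ 2) ^ 2 * (z * i) ^ 4 [MOD (4 * v) ^ 2] :=
      (hs.pow 2).mul_right _
    have h3 : (s ^ 2) ^ 2 * (z * i) ^ 4 = (s * i) ^ 4 * z ^ 4 := by ring
    have h4 : (s * i) ^ 4 * z ^ 4 ≡ 1 ^ 4 * z ^ 4 [MOD (4 * v) ^ 2] := (hi'.pow 4).mul_right _
    rw [h3] at h2
    simpa using h2.trans h4
  obtain ⟨κ, hκ⟩ := Nat.modEq_iff_dvd.1 h1.symm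
  push_cast at hκ
  have hκ' : (4 * (v : ℤ)) ^ 2 * κ + (z : ℤ) ^ 4 = (g : ℤ) ^ 2 * ((z * i : ℕ) : ℤ) ^ 4 := by
    push_cast; linear_combination (-1 : ℤ) * hκ
  refine ⟨z * i, κ, ?_, hκ'⟩
  rw [← Nat.not_even_iff_odd]
  intro h
  have h2 : (2 : ℤ) ∣ (z : ℤ) ^ 4 := by
    have e : (z : ℤ) ^ 4 = (g : ℤ) ^ 2 * ((z * i : ℕ) : ℤ) ^ 4 - (4 * (v : ℤ)) ^ 2 * κ := by
      rw [← hκ']; ring
    rw [e]
    have h3 : (2 : ℤ) ∣ ((z * i : ℕ) : ℤ) := by exact_mod_cast even_iff_two_dvd.1 h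
    refine dvd_sub ((dvd_pow h3 four_ne_zero).mul_left _) ⟨8 * (v : ℤ) ^ 2 * κ, by ring⟩
  have h3 : 2 ∣ z := Nat.prime_two.dvd_of_dvd_pow (by exact_mod_cast h2)
  exact (Nat.not_even_iff_odd.2 hz) (even_iff_two_dvd.2 h3)

theorem four_dvd_of {n r : ℕ} (h : (8 : ℤ) ∣ (n : ℤ) - r) (h4 : 2 * 2 ∣ n) : 4 ∣ r := by
  omega

open Classical in
/-- many good `u` -/
theorem main_u {δ g z t v x₀ r : ℕ} {κ : ℤ} (hg : Squarefree g) (hgo : Odd g) (hv : 0 < v)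
    (ht : 0 < t) (he : z ^ 4 = t ^ 4 + δ * (4 * v) ^ 2) (hzo : Odd z) (hto : Odd t)
    (hzv : Nat.Coprime z v) (hgz : Nat.Coprime g z) (hgt : Nat.Coprime g t)
    (hx : Odd x₀) (hκ : (4 * (v : ℤ)) ^ 2 * κ + (z : ℤ) ^ 4 = (g : ℤ) ^ 2 * (x₀ : ℤ) ^ 4)
    (hr : ¬ 4 ∣ r) (hr' : ¬ 4 ∣ r + δ * g) :
    ∃ B M₀ : ℕ, 0 < B ∧ ∀ M : ℕ, M₀ ≤ M → M ≤ 2 * (Pairs (δ * g) r ((B * M) ^ 4)).ncard := by
  have hz0 : 0 < z := hzo.pos
  have hg0 : 0 < g := hgo.pos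
  set P := 64 + g + z + t + v with hP
  obtain ⟨k, Q, hQ, hQP, hloc⟩ := local_class he hx hgo hzv hgz hgt hκ r P
  set a := x₀ + 4 * v ^ 2 * k with ha
  set b := 4 * v ^ 2 * Q with hb
  have hb0 : 0 < b := by positivity
  have hbP : ∀ p : ℕ, p.Prime → p ∣ b → p ≤ P := by
    intro p hp h
    rcases (Nat.Prime.dvd_mul hp).1 h with h1 | h1
    · rcases (Nat.Prime.dvd_mul hp).1 h1 with h2 | h2
      · have : p ∣ 2 ^ 2 := h2
        have := (Nat.prime_dvd_prime_iff_eq hp Nat.prime_two).1 (hp.dvd_of_dvd_pow this)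
        omega
      · have := Nat.le_of_dvd hv (hp.dvd_of_dvd_pow h2)
        omega
    · rcases hQP p hp h1 with h2 | h2
      · exact h2
      · omega
  obtain ⟨M₁, hM₁⟩ := card_bad (e := (z : ℤ) ^ 2) hb0 hz0 hg0 (P := P) (a := a) (by omega)
    (by omega) (by omega) hbP (Or.inl rfl)
  obtain ⟨M₂, hM₂⟩ := card_bad (e := -(z : ℤ) ^ 2) hb0 hz0 hg0 (P := P) (a := a) (by omega)
    (by omega) (by omega) hbP (Or.inr rfl)
  obtain ⟨M₃, hM₃⟩ := card_bad (e := (t : ℤ) ^ 2) hb0 ht hg0 (P := P) (a := a) (by omega)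
    (by omega) (by omega) hbP (Or.inl rfl)
  obtain ⟨M₄, hM₄⟩ := card_bad (e := -(t : ℤ) ^ 2) hb0 ht hg0 (P := P) (a := a) (by omega)
    (by omega) (by omega) hbP (Or.inr rfl)
  refine ⟨3 * g * b, M₁ + M₂ + M₃ + M₄ + a + z + t + 1, by positivity, fun M hM => ?_⟩
  have c1 := hM₁ M (by omega)
  have c2 := hM₂ M (by omega)
  have c3 := hM₃ M (by omega)
  have c4 := hM₄ M (by omega)
  set G := Ico M (2 * M) \ ((Bad a b g ((z : ℤ) ^ 2) P M ∪ Bad a b g (-(z : ℤ) ^ 2) P M) ∪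
    (Bad a b g ((t : ℤ) ^ 2) P M ∪ Bad a b g (-(t : ℤ) ^ 2) P M)) with hG
  have hGc : M ≤ 2 * G.card := by
    have h1 := le_card_sdiff ((Bad a b g ((z : ℤ) ^ 2) P M ∪ Bad a b g (-(z : ℤ) ^ 2) P M) ∪
      (Bad a b g ((t : ℤ) ^ 2) P M ∪ Bad a b g (-(t : ℤ) ^ 2) P M)) (Ico M (2 * M))
    have h2 := card_union_le (Bad a b g ((z : ℤ) ^ 2) P M ∪ Bad a b g (-(z : ℤ) ^ 2) P M)
      (Bad a b g ((t : ℤ) ^ 2) P M ∪ Bad a b g (-(t : ℤ) ^ 2) P M)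
    have h3 := card_union_le (Bad a b g ((z : ℤ) ^ 2) P M) (Bad a b g (-(z : ℤ) ^ 2) P M)
    have h4 := card_union_le (Bad a b g ((t : ℤ) ^ 2) P M) (Bad a b g (-(t : ℤ) ^ 2) P M)
    rw [Nat.card_Ico] at h1
    rw [hG]
    omega
  -- the number attached to `u`
  set X : ℕ → ℕ := fun u => x₀ + 4 * v ^ 2 * (k + Q * u) with hX
  set n' : ℕ → ℕ := fun u => (F κ g x₀ v ((k + Q * u : ℕ) : ℤ)).toNat with hn'
  have hXlin : ∀ u, ((X u : ℕ) : ℤ) = lin a b u := by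
    intro u
    simp only [hX, lin, ha, hb]
    push_cast; ring
  have hXu : ∀ u, M ≤ u → z < X u ∧ t < X u := by
    intro u hu
    have h1 : u ≤ Q * u := Nat.le_mul_of_pos_left u hQ
    have h2 : k + Q * u ≤ 4 * v ^ 2 * (k + Q * u) := Nat.le_mul_of_pos_left _ (by positivity)
    simp only [hX]
    constructor <;> omega
  have hFe : ∀ u, (4 * (v : ℤ)) ^ 2 * F κ g x₀ v ((k + Q * u : ℕ) : ℤ) + (z : ℤ) ^ 4 =
      (g : ℤ) ^ 2 * (X u : ℤ) ^ 4 := by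
    intro u
    have h1 := F_eq hκ ((k + Q * u : ℕ) : ℤ)
    simp only [hX]
    rw [h1]
    push_cast; ring
  have hFpos : ∀ u, M ≤ u → 0 < F κ g x₀ v ((k + Q * u : ℕ) : ℤ) := by
    intro u hu
    have h1 : (z : ℤ) ^ 4 < (X u : ℤ) ^ 4 := by
      have : z ^ 4 < X u ^ 4 := Nat.pow_lt_pow_left (hXu u hu).1 (by norm_num)
      exact_mod_cast this
    have h2 : (X u : ℤ) ^ 4 ≤ (g : ℤ) ^ 2 * (X u : ℤ) ^ 4 := by
      have h3 : (1 : ℤ) ≤ (g : ℤ) ^ 2 := by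
        have : 1 ≤ g ^ 2 := Nat.one_le_pow _ _ hg0
        exact_mod_cast this
      nlinarith [show (0 : ℤ) ≤ (X u : ℤ) ^ 4 by positivity]
    have h3 := hFe u
    have h4 : 0 < (4 * (v : ℤ)) ^ 2 * F κ g x₀ v ((k + Q * u : ℕ) : ℤ) := by linarith
    exact pos_of_mul_pos_right h4 (by positivity)
  have hn'F : ∀ u, M ≤ u → ((n' u : ℕ) : ℤ) = F κ g x₀ v ((k + Q * u : ℕ) : ℤ) := fun u hu =>
    Int.toNat_of_nonneg (hFpos u hu).le
  have eq1 : ∀ u, M ≤ u → (4 * v) ^ 2 * n' u + z ^ 4 = g ^ 2 * X u ^ 4 := by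
    intro u hu
    have h1 := hFe u
    rw [← hn'F u hu] at h1
    exact_mod_cast h1
  have eq2 : ∀ u, M ≤ u → (4 * v) ^ 2 * (n' u + δ) + t ^ 4 = g ^ 2 * X u ^ 4 := by
    intro u hu
    rw [← eq1 u hu, he]; ring
  have hXodd : ∀ u, Odd (X u) := fun u => by
    simp only [hX]
    exact hx.add_even ⟨2 * v ^ 2 * (k + Q * u), by ring⟩
  have copg : ∀ (c m u : ℕ), Nat.Coprime g c → (4 * v) ^ 2 * m + c ^ 4 = g ^ 2 * X u ^ 4 →
      Nat.Coprime g m := by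
    intro c m u hgc h
    refine Nat.coprime_of_dvd fun p hp h1 h2 => ?_
    have h3 : p ∣ (4 * v) ^ 2 * m + c ^ 4 := by
      rw [h]; exact (dvd_pow h1 two_ne_zero).mul_right _
    have h4 : p ∣ c ^ 4 := (Nat.dvd_add_right (h2.mul_left _)).1 h3
    have h5 := Nat.dvd_gcd h1 (hp.dvd_of_dvd_pow h4)
    rw [hgc] at h5
    exact hp.one_lt.ne' (Nat.dvd_one.1 h5)
  have large : ∀ (c m u p : ℕ), 0 < c → c ≤ P → u ∈ Ico M (2 * M) →
      (4 * v) ^ 2 * m + c ^ 4 = g ^ 2 * X u ^ 4 → p.Prime → P < p → p * p ∣ m →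
      u ∈ Bad a b g ((c : ℤ) ^ 2) P M ∪ Bad a b g (-(c : ℤ) ^ 2) P M := by
    intro c m u p hc0 hcP hu h hp hPp hd
    have hpc : ¬ p ∣ c := fun h1 => by
      have := Nat.le_of_dvd hc0 h1; omega
    have h1 : (p : ℤ) ^ 2 ∣ (g : ℤ) ^ 2 * (lin a b u) ^ 4 - (c : ℤ) ^ 4 := by
      rw [← hXlin u]
      have h2 : (p : ℤ) ^ 2 ∣ (m : ℤ) := by
        rw [← sq] at hd; exact_mod_cast hd
      have h3 : (g : ℤ) ^ 2 * (X u : ℤ) ^ 4 - (c : ℤ) ^ 4 = (4 * (v : ℤ)) ^ 2 * m := by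
        have h' : (4 * (v : ℤ)) ^ 2 * m + (c : ℤ) ^ 4 = (g : ℤ) ^ 2 * (X u : ℤ) ^ 4 := by
          exact_mod_cast h
        linarith
      rw [h3]; exact h2.mul_left _
    rw [mem_union]
    rcases sq_factor hp (by omega) hpc h1 with h2 | h2
    · left; exact mem_filter.2 ⟨hu, p, hp, hPp, h2⟩
    · right; exact mem_filter.2 ⟨hu, p, hp, hPp, h2⟩
  have key : ∀ u ∈ G, g * n' u ∈ Pairs (δ * g) r ((3 * g * b * M) ^ 4) := by
    intro u hu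
    obtain ⟨hu1, hu2⟩ := mem_sdiff.1 hu
    have huM := (mem_Ico.1 hu1).1
    rw [mem_union, not_or] at hu2
    obtain ⟨l1, l2⟩ := hloc u
    rw [← hn'F u huM] at l1 l2
    have l1' : (8 : ℤ) ∣ ((g * n' u : ℕ) : ℤ) - r := by push_cast; exact l1
    have hsum : g * n' u + δ * g = g * (n' u + δ) := by ring
    have l1'' : (8 : ℤ) ∣ ((g * (n' u + δ) : ℕ) : ℤ) - ((r + δ * g : ℕ) : ℤ) := by
      rw [← hsum]; push_cast; push_cast at l1'
      have e : (g : ℤ) * n' u + δ * g - (r + δ * g) = g * n' u - r := by ring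
      rw [e]; exact l1'
    have hpos : 0 < n' u := by
      have := hFpos u huM
      rw [← hn'F u huM] at this
      exact_mod_cast this
    have s1 : Squarefree (n' u) := by
      rw [Nat.squarefree_iff_prime_squarefree]
      intro p hp hd
      by_cases hp2 : p = 2
      · subst hp2
        exact hr (four_dvd_of l1' (hd.mul_left g))
      · by_cases hpP : p ≤ P
        · apply (l2 p hp hp2 hpP).1
          rw [← sq] at hd; exact_mod_cast hd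
        · exact hu2.1 (large z (n' u) u p hz0 (by omega) hu1 (eq1 u huM) hp (by omega) hd)
    have s2 : Squarefree (n' u + δ) := by
      rw [Nat.squarefree_iff_prime_squarefree]
      intro p hp hd
      by_cases hp2 : p = 2
      · subst hp2
        exact hr' (four_dvd_of l1'' (hd.mul_left g))
      · by_cases hpP : p ≤ P
        · apply (l2 p hp hp2 hpP).2
          rw [← sq] at hd; exact_mod_cast hd
        · exact hu2.2 (large t (n' u + δ) u p ht (by omega) hu1 (eq2 u huM) hp (by omega) hd)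
    refine ⟨?_, ?_, ?_, ?_, ?_, ?_⟩
    · -- the bound
      have h1 : n' u ≤ g ^ 2 * X u ^ 4 := by
        rw [← eq1 u huM]
        have : n' u ≤ (4 * v) ^ 2 * n' u := Nat.le_mul_of_pos_left _ (by positivity)
        omega
      have h2 : X u ≤ 3 * b * M := by
        have h3 : X u = a + b * u := by simp only [hX, ha, hb]; ring
        rw [h3]
        have h4 : b * u ≤ b * (2 * M) := Nat.mul_le_mul_left _ (mem_Ico.1 hu1).2.le
        have h5 : a ≤ b * M := (by omega : a ≤ M).trans (Nat.le_mul_of_pos_left M hb0)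
        nlinarith
      calc g * n' u ≤ g * (g ^ 2 * X u ^ 4) := Nat.mul_le_mul_left _ h1
        _ = g ^ 3 * X u ^ 4 := by ring
        _ ≤ g ^ 4 * (3 * b * M) ^ 4 :=
            Nat.mul_le_mul (Nat.pow_le_pow_right hg0 (by norm_num)) (Nat.pow_le_pow_left h2 4)
        _ = _ := by ring
    · exact (Nat.modEq_iff_dvd.2 (by push_cast at l1' ⊢; exact l1')).symm
    · exact (Nat.squarefree_mul (copg z (n' u) u hgz (eq1 u huM))).2 ⟨hg, s1⟩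
    · rw [hsum]
      exact (Nat.squarefree_mul (copg t (n' u + δ) u hgt (eq2 u huM))).2 ⟨hg, s2⟩
    · exact cong_of hgo (hXodd u) hzo (by omega) hpos (eq1 u huM)
    · rw [hsum]
      exact cong_of hgo (hXodd u) hto (by omega) (by omega) (eq2 u huM)
  have hinj : Set.InjOn (fun u => g * n' u) (G : Set ℕ) := by
    intro u hu u' hu' h
    have h1 := (mem_Ico.1 (mem_sdiff.1 (mem_coe.1 hu)).1).1
    have h2 := (mem_Ico.1 (mem_sdiff.1 (mem_coe.1 hu')).1).1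
    have h3 : n' u = n' u' := Nat.eq_of_mul_eq_mul_left hg0 h
    have h4 : g ^ 2 * X u ^ 4 = g ^ 2 * X u' ^ 4 := by rw [← eq1 u h1, ← eq1 u' h2, h3]
    have h5 : X u ^ 4 = X u' ^ 4 := Nat.eq_of_mul_eq_mul_left (by positivity) h4
    have h6 : X u = X u' := Nat.pow_left_injective (n := 4) (by norm_num) h5
    have h7 : 4 * v ^ 2 * (k + Q * u) = 4 * v ^ 2 * (k + Q * u') := by
      simp only [hX] at h6; omega
    have h8 : k + Q * u = k + Q * u' := Nat.eq_of_mul_eq_mul_left (by positivity) h7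
    exact Nat.eq_of_mul_eq_mul_left hQ (by omega)
  have hle : G.card ≤ (Pairs (δ * g) r ((3 * g * b * M) ^ 4)).ncard := by
    rw [← Set.ncard_coe_finset]
    exact Set.ncard_le_ncard_of_injOn (fun u => g * n' u) (fun u hu => key u hu) hinj
      (pairs_finite _ _ _)
  omega

/-- the count -/
theorem count_of {h r B M₀ : ℕ} (hB : 0 < B)
    (hM : ∀ M : ℕ, M₀ ≤ M → M ≤ 2 * (Pairs h r ((B * M) ^ 4)).ncard) :
    ∃ c : ℝ, 0 < c ∧ ∃ T₀ : ℕ, ∀ T : ℕ, T₀ ≤ T →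
      c * (T : ℝ) ^ (1 / 4 : ℝ) ≤ ((Pairs h r T).ncard : ℝ) := by
  have hB' : (0 : ℝ) < B := by exact_mod_cast hB
  refine ⟨1 / (4 * B), by positivity, (B * (M₀ + 2)) ^ 4, fun T hT => ?_⟩
  set y : ℝ := (T : ℝ) ^ (1 / 4 : ℝ) with hy
  have hy0 : 0 ≤ y := by positivity
  have hy4 : y ^ 4 = T := by
    rw [hy, ← Real.rpow_natCast, ← Real.rpow_mul (Nat.cast_nonneg _)]
    norm_num
  have hyl : (B : ℝ) * (M₀ + 2) ≤ y := by
    refine le_of_pow_le_pow_left₀ (n := 4) (by norm_num) hy0 ?_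
    rw [hy4]
    have : (((B * (M₀ + 2)) ^ 4 : ℕ) : ℝ) ≤ T := by exact_mod_cast hT
    push_cast at this
    exact this
  set M := ⌊y / B⌋₊ with hMdef
  have hyB : (M₀ : ℝ) + 2 ≤ y / B := by
    rw [le_div_iff₀ hB']; linarith
  have h1 : y / B < M + 1 := Nat.lt_floor_add_one _
  have h2 : (M : ℝ) ≤ y / B := Nat.floor_le (by positivity)
  have h3 : M₀ ≤ M := by
    have : (M₀ : ℝ) < M + 1 := by linarith
    have : M₀ < M + 1 := by exact_mod_cast this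
    omega
  have h4 : (B * M) ^ 4 ≤ T := by
    have h5 : ((B * M : ℕ) : ℝ) ≤ y := by
      push_cast
      rw [mul_comm]
      exact (le_div_iff₀ hB').1 h2
    have h6 : ((B * M : ℕ) : ℝ) ^ 4 ≤ y ^ 4 := pow_le_pow_left₀ (Nat.cast_nonneg _) h5 4
    rw [hy4] at h6
    exact_mod_cast h6
  have h5 := hM M h3
  have h6 : (Pairs h r ((B * M) ^ 4)).ncard ≤ (Pairs h r T).ncard :=
    Set.ncard_le_ncard (fun n hn => ⟨hn.1.trans h4, hn.2⟩) (pairs_finite _ _ _)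
  have h7 : (M : ℝ) ≤ 2 * ((Pairs h r T).ncard : ℝ) := by
    have : M ≤ 2 * (Pairs h r T).ncard := by omega
    exact_mod_cast this
  have h8 : y / B ≤ 2 * M := by linarith
  have h9 : 1 / (4 * (B : ℝ)) * y = y / B / 4 := by field_simp
  rw [h9]
  linarith

theorem main {δ g x y z t r : ℕ} (hδ : Squarefree δ) (hg : Squarefree g) (hx0 : 0 < x)
    (hy0 : 0 < y) (ht0 : 0 < t) (hxy : Nat.Coprime x y) (e1 : x ^ 2 + δ * y ^ 2 = z ^ 2)
    (e2 : x ^ 2 = δ * y ^ 2 + t ^ 2) (hgz : Nat.Coprime g (z * t))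
    (hs : ∃ s : ℕ, g ≡ s ^ 2 [MOD (2 * x * y) ^ 2]) (hr : ¬ 4 ∣ r) (hr' : ¬ 4 ∣ r + δ * g) :
    ∃ c : ℝ, 0 < c ∧ ∃ T₀ : ℕ, ∀ T : ℕ, T₀ ≤ T →
      c * (T : ℝ) ^ (1 / 4 : ℝ) ≤ ((Pairs (δ * g) r T).ncard : ℝ) := by
  obtain ⟨v, hv0, hv, he, hzo, hto, -, hzv, -⟩ := prim_of hδ hxy hx0 hy0 ht0 e1 e2
  obtain ⟨s, hs⟩ := hs
  rw [hv] at hs
  obtain ⟨hgo, x₀, κ, hx, hκ⟩ := exists_root hg hv0 hzo hs
  obtain ⟨B, M₀, hB, hM⟩ := main_u hg hgo hv0 ht0 he hzo hto hzv (Nat.Coprime.coprime_mul_right_right hgz)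
    (Nat.Coprime.coprime_mul_left_right hgz) hx hκ hr hr'
  exact count_of hB hM

end Pool.Agent.T6.H10.CT
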