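import Pool.Agent.T6.H10.CT.Fund
import Pool.Agent.T6.H10.CT.C

/-!
The numbers `u` for which `(g² X⁴ - z⁴) (g² X⁴ - t⁴)` has no prime factor between `P` and `y`.
-/

set_option autoImplicit false

open Finset

namespace Pool.Agent.T6.H10.CT

/-- the polynomial -/
def W2 (a b g z t : ℕ) (n : ℤ) : ℤ :=
  ((g : ℤ) ^ 2 * ((a : ℤ) + b * n) ^ 4 - (z : ℤ) ^ 4) *
    ((g : ℤ) ^ 2 * ((a : ℤ) + b * n) ^ 4 - (t : ℤ) ^ 4)

open Classical in
/-- the sifted set -/
noncomputable def Sif (a b g z t P y M : ℕ) : Finset ℕ :=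
  (Ico M (2 * M)).filter fun u => ∀ p : ℕ, p.Prime → P < p → p ≤ y →
    ¬ (p : ℤ) ∣ W2 a b g z t (u : ℤ)

/-- the conditions of the sieve -/
def QQ (a b g z t P M : ℕ) (p n : ℕ) : Prop :=
  P < p ∧ (p : ℤ) ∣ W2 a b g z t (((M - 1 : ℕ) : ℤ) + n)

theorem W2_congr {a b g z t : ℕ} {m n k : ℤ} (h : k ∣ m - n) :
    k ∣ W2 a b g z t m ↔ k ∣ W2 a b g z t n := by
  have h1 : m ≡ n [ZMOD k] := ((Int.modEq_iff_dvd).2 h).symm
  have h2 : W2 a b g z t m ≡ W2 a b g z t n [ZMOD k] := by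
    unfold W2
    gcongr
  constructor
  · intro h3
    exact (Int.modEq_zero_iff_dvd).1 (h2.symm.trans ((Int.modEq_zero_iff_dvd).2 h3))
  · intro h3
    exact (Int.modEq_zero_iff_dvd).1 (h2.trans ((Int.modEq_zero_iff_dvd).2 h3))

theorem perB {a b g z t P : ℕ} (hg : 0 < g) (hgP : g ≤ P)
    (hbP : ∀ p : ℕ, p.Prime → p ∣ b → p ≤ P) (M : ℕ) : FL.PerB (QQ a b g z t P M) 8 := by
  classical
  constructor
  · intro p n
    unfold QQ
    refine and_congr_right fun _ => ?_
    refine W2_congr ?_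
    push_cast
    have e : (((M - 1 : ℕ) : ℤ) + n) - (((M - 1 : ℕ) : ℤ) + (n : ℤ) % p) = (n : ℤ) - (n : ℤ) % p := by
      ring
    rw [e]
    exact Int.dvd_self_sub_emod
  · intro p hp
    unfold FL.nuB
    by_cases hPp : P < p
    · have : Fact p.Prime := ⟨hp⟩
      have hgp : (g : ZMod p) ≠ 0 := by
        intro h
        have h1 := (ZMod.natCast_eq_zero_iff g p).1 h
        have := Nat.le_of_dvd hg h1
        omega
      have hbp : (b : ZMod p) ≠ 0 := by
        intro h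
        have h1 := (ZMod.natCast_eq_zero_iff b p).1 h
        have := hbP p hp h1
        omega
      set f : Polynomial (ZMod p) :=
        (Polynomial.C ((g : ZMod p) ^ 2) * Polynomial.X ^ 4 + Polynomial.C (-(z : ZMod p) ^ 4)) *
        (Polynomial.C ((g : ZMod p) ^ 2) * Polynomial.X ^ 4 + Polynomial.C (-(t : ZMod p) ^ 4)) with hf
      have hfd : f.natDegree ≤ 8 := by
        rw [hf]; compute_degree
      have hg2 : (g : ZMod p) ^ 2 ≠ 0 := pow_ne_zero 2 hgp
      have hfac : ∀ w : ZMod p,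
          Polynomial.C ((g : ZMod p) ^ 2) * Polynomial.X ^ 4 + Polynomial.C w ≠ 0 := by
        intro w h0
        have h1 : (Polynomial.C ((g : ZMod p) ^ 2) * Polynomial.X ^ 4 +
            Polynomial.C w).coeff 4 = (g : ZMod p) ^ 2 := by
          rw [Polynomial.coeff_add, Polynomial.coeff_C_mul_X_pow, Polynomial.coeff_C]
          simp
        rw [h0, Polynomial.coeff_zero] at h1
        exact hg2 h1.symm
      have hf0 : f ≠ 0 := mul_ne_zero (hfac _) (hfac _)
      refine le_trans ?_ ((Polynomial.card_roots' f).trans hfd)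
      refine le_trans ?_ (Multiset.toFinset_card_le _)
      refine card_le_card_of_injOn
        (fun r => ((a : ZMod p) + b * (((M - 1 : ℕ) : ZMod p) + r))) ?_ ?_
      · intro r hr
        have h1 := (mem_filter.1 (mem_coe.1 hr)).2.2
        rw [mem_coe, Multiset.mem_toFinset, Polynomial.mem_roots hf0, Polynomial.IsRoot.def]
        have h2 : ((W2 a b g z t (((M - 1 : ℕ) : ℤ) + r) : ℤ) : ZMod p) = 0 :=
          (ZMod.intCast_zmod_eq_zero_iff_dvd _ _).2 h1
        unfold W2 at h2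
        push_cast at h2
        rw [hf]
        simp only [Polynomial.eval_mul, Polynomial.eval_add, Polynomial.eval_C,
          Polynomial.eval_pow, Polynomial.eval_X]
        simp only [sub_eq_add_neg] at h2
        exact h2
      · intro r hr r' hr' h
        have h1 := mem_range.1 (mem_filter.1 (mem_coe.1 hr)).1
        have h2 := mem_range.1 (mem_filter.1 (mem_coe.1 hr')).1
        have h3 : (b : ZMod p) * (r : ZMod p) = b * r' := by
          have h4 : (a : ZMod p) + b * (((M - 1 : ℕ) : ZMod p) + r) =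
            a + b * (((M - 1 : ℕ) : ZMod p) + r') := h
          linear_combination h4
        have h4 : (r : ZMod p) = r' := mul_left_cancel₀ hbp h3
        have h5 := (ZMod.natCast_eq_natCast_iff' r r' p).1 h4
        rwa [Nat.mod_eq_of_lt h1, Nat.mod_eq_of_lt h2] at h5
    · have : ((range p).filter (fun r => QQ a b g z t P M p r)) = ∅ := by
        apply filter_eq_empty_iff.2
        intro r _ h
        exact hPp h.1
      rw [this]; simp

theorem nuB_small {a b g z t P M p : ℕ} (h : p ≤ P) : FL.nuB (QQ a b g z t P M) p = 0 := by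
  classical
  unfold FL.nuB
  rw [card_eq_zero]
  apply filter_eq_empty_iff.2
  intro r _ h1
  have := h1.1
  omega

theorem V_low {a b g z t P M : ℕ} (hP : 64 ≤ P) (hQ : FL.PerB (QQ a b g z t P M) 8) (y : ℕ) :
    FL.Vz y ^ 16 ≤ ∏ p ∈ FL.pz y, (1 - (FL.nuB (QQ a b g z t P M) p : ℝ) / p) := by
  unfold FL.Vz
  rw [← prod_pow]
  apply prod_le_prod
  · intro p hp
    exact (by norm_num : Even 16).pow_nonneg _
  · intro p hp
    have hpp := (FL.mem_pz.1 hp).2
    have hp1 : (1 : ℝ) ≤ p := by exact_mod_cast hpp.one_le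
    have hp0 : (0 : ℝ) < p := by linarith
    have h0 : 0 ≤ 1 - 1 / (p : ℝ) := by
      have : 1 / (p : ℝ) ≤ 1 := by rw [div_le_one hp0]; exact hp1
      linarith
    have h1 : 1 - 1 / (p : ℝ) ≤ 1 := by
      have : 0 ≤ 1 / (p : ℝ) := by positivity
      linarith
    by_cases hpP : p ≤ P
    · rw [nuB_small hpP]
      simp only [Nat.cast_zero, zero_div, sub_zero]
      exact pow_le_one₀ h0 h1
    · have h2 : (FL.nuB (QQ a b g z t P M) p : ℝ) ≤ 8 := by exact_mod_cast hQ.few p hpp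
      have h64 : (64 : ℝ) ≤ p := by exact_mod_cast (by omega : 64 ≤ p)
      have h3 : (FL.nuB (QQ a b g z t P M) p : ℝ) / p ≤ 8 * (1 / (p : ℝ)) := by
        rw [mul_one_div]
        exact div_le_div_of_nonneg_right h2 hp0.le
      have ht : 1 / (p : ℝ) ≤ 1 / 64 := one_div_le_one_div_of_le (by norm_num) h64
      have ht0 : 0 < 1 / (p : ℝ) := by positivity
      set τ := 1 / (p : ℝ)
      have h4 : 0 < 1 - 8 * τ := by linarith
      have h5 : (1 - τ) ^ 16 ≤ Real.exp (-(16 * τ)) := by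
        have h6 : 1 - τ ≤ Real.exp (-τ) := Real.one_sub_le_exp_neg τ
        have h7 : (1 - τ) ^ 16 ≤ Real.exp (-τ) ^ 16 := pow_le_pow_left₀ h0 h6 16
        have h8 : Real.exp (-τ) ^ 16 = Real.exp (-(16 * τ)) := by
          rw [← Real.exp_nat_mul]; congr 1; push_cast; ring
        rwa [h8] at h7
      have h6 : Real.exp (-(16 * τ)) ≤ 1 - 8 * τ := by
        rw [← Real.le_log_iff_exp_le h4]
        have h7 := Real.one_sub_inv_le_log_of_pos h4
        have h8 : (1 - 8 * τ)⁻¹ ≤ 1 + 16 * τ := by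
          rw [inv_le_iff_one_le_mul₀ h4]
          nlinarith
        linarith
      linarith

theorem Sif_card {a b g z t P y M : ℕ} (hM : 0 < M) :
    open Classical in
    (((Icc 1 M).filter (fun n : ℕ => ∀ p ∈ FL.pz y, ¬ QQ a b g z t P M p n)).card) ≤
      (Sif a b g z t P y M).card := by
  classical
  refine card_le_card_of_injOn (fun n => M - 1 + n) ?_ ?_
  · intro n hn
    obtain ⟨h1, h2⟩ := mem_filter.1 (mem_coe.1 hn)
    have h3 := mem_Icc.1 h1
    refine mem_coe.2 (mem_filter.2 ⟨mem_Ico.2 ⟨?_, ?_⟩, fun p hp hPp hpy hd => ?_⟩)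
    · show M ≤ M - 1 + n
      omega
    · show M - 1 + n < 2 * M
      omega
    · apply h2 p (FL.mem_pz.2 ⟨hpy, hp⟩)
      refine ⟨hPp, ?_⟩
      push_cast at hd
      exact_mod_cast hd
  · intro n _ n' _ h
    have h1 : M - 1 + n = M - 1 + n' := h
    omega

theorem grow (C A : ℕ) : ∃ y0 : ℕ, ∀ y : ℕ, y0 ≤ y → (A : ℝ) * (⌈Real.log y ^ C⌉₊ : ℝ) ^ 3 ≤ Real.sqrt y := by
  have h1 : (fun y : ℝ => Real.log y ^ ((3 * C : ℕ) : ℝ)) =o[Filter.atTop]
      (fun y : ℝ => y ^ (1 / 2 : ℝ)) := isLittleO_log_rpow_rpow_atTop _ (by norm_num)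
  have h2 := h1.bound (c := 1 / (8 * A + 1)) (by positivity)
  rw [Filter.eventually_atTop] at h2
  obtain ⟨x1, hx1⟩ := h2
  obtain ⟨n1, hn1⟩ := exists_nat_ge x1
  obtain ⟨n2, hn2⟩ := FL.ev_L' 1
  refine ⟨max n1 n2, fun y hy => ?_⟩
  have hL := hn2 y (le_trans (le_max_right _ _) hy)
  have h3 := hx1 (y : ℝ) (hn1.trans (by exact_mod_cast (le_trans (le_max_left _ _) hy)))
  rw [Real.rpow_natCast, ← Real.sqrt_eq_rpow, Real.norm_of_nonneg (by positivity),
    Real.norm_of_nonneg (Real.sqrt_nonneg _)] at h3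
  set L := Real.log y with hLd
  have hC1 : 1 ≤ L ^ C := one_le_pow₀ hL
  have h4 : (⌈L ^ C⌉₊ : ℝ) ≤ 2 * L ^ C := by
    have := Nat.ceil_lt_add_one (show 0 ≤ L ^ C by positivity)
    linarith
  have h5 : (⌈L ^ C⌉₊ : ℝ) ^ 3 ≤ (2 * L ^ C) ^ 3 := pow_le_pow_left₀ (Nat.cast_nonneg _) h4 3
  have h6 : (2 * L ^ C) ^ 3 = 8 * L ^ (3 * C) := by
    rw [mul_pow, ← pow_mul, mul_comm C 3]; norm_num
  have hA : (0 : ℝ) ≤ A := Nat.cast_nonneg _
  have h7 : (8 * (A : ℝ) + 1) * L ^ (3 * C) ≤ Real.sqrt y := by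
    have h8 : (0 : ℝ) < 8 * A + 1 := by positivity
    rw [one_div, inv_mul_eq_div, le_div_iff₀ h8] at h3
    linarith
  have h8 : 0 ≤ L ^ (3 * C) := by positivity
  calc (A : ℝ) * (⌈L ^ C⌉₊ : ℝ) ^ 3 ≤ A * (8 * L ^ (3 * C)) := by
        rw [← h6]; exact mul_le_mul_of_nonneg_left h5 hA
    _ ≤ (8 * (A : ℝ) + 1) * L ^ (3 * C) := by nlinarith
    _ ≤ _ := h7

end Pool.Agent.T6.H10.CT
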