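import Pool.Agent.T6.H10.CT.H
import Pool.Agent.T6.H10.CT.D2

/-!
Many `u` without prime factors between `P` and `y` and without squares of primes larger than `y`.
-/

set_option autoImplicit false

open Finset

namespace Pool.Agent.T6.H10.CT

open Classical in
/-- the good set -/
noncomputable def Gd (a b g z t P y M : ℕ) : Finset ℕ :=
  Sif a b g z t P y M \ ((Bad a b g ((z : ℤ) ^ 2) y M ∪ Bad a b g (-(z : ℤ) ^ 2) y M) ∪
    (Bad a b g ((t : ℤ) ^ 2) y M ∪ Bad a b g (-(t : ℤ) ^ 2) y M))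

theorem sif_many {a b g z t P : ℕ} (hg : 0 < g) (hP : 64 ≤ P) (hgP : g ≤ P)
    (hbP : ∀ p : ℕ, p.Prime → p ∣ b → p ≤ P) :
    ∃ K C y0 : ℕ, 1 ≤ K ∧ ∀ y : ℕ, y0 ≤ y →
      3 * y ^ K ≤ 8 * (⌈Real.log y ^ C⌉₊ * (Sif a b g z t P y (y ^ K)).card) := by
  classical
  obtain ⟨K, x0, hK, hS⟩ := FL.sys_fund 8 (by norm_num) (1 / 2) (by norm_num)
  obtain ⟨C0, N0, hV⟩ := FL.Vz_low
  obtain ⟨y1, hy1⟩ := grow (C0 * 16) 8
  obtain ⟨n2, hn2⟩ := FL.ev_L' 1
  refine ⟨K, C0 * 16, max (max x0 N0) (max (max y1 n2) 1), hK, fun y hy => ?_⟩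
  have a1 : x0 ≤ y := by omega
  have a2 : N0 ≤ y := by omega
  have a3 : y1 ≤ y := by omega
  have a4 : n2 ≤ y := by omega
  have a5 : 1 ≤ y := by omega
  set M := y ^ K with hM
  have hM0 : 0 < M := by positivity
  have hyM : y ≤ M := Nat.le_self_pow (by omega) y
  have hQ : FL.PerB (QQ a b g z t P M) 8 := perB hg hgP hbP M
  have h1 := (abs_le.1 (hS M y a1 le_rfl _ hQ M)).1
  have h2 := Sif_card (a := a) (b := b) (g := g) (z := z) (t := t) (P := P) (y := y) hM0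
  have hV1 := V_low (a := a) (b := b) (g := g) (z := z) (t := t) hP hQ y
  set V := ∏ p ∈ FL.pz y, (1 - (FL.nuB (QQ a b g z t P M) p : ℝ) / p)
  set L := Real.log y with hLd
  have hL : 1 ≤ L := hn2 y a4
  have hV2 : 1 / L ^ (C0 * 16) ≤ V := by
    refine le_trans ?_ hV1
    have h3 : (1 / L ^ C0) ^ 16 ≤ FL.Vz y ^ 16 := pow_le_pow_left₀ (by positivity) (hV y a2) 16
    rwa [div_pow, one_pow, ← pow_mul] at h3
  set N := ⌈L ^ (C0 * 16)⌉₊ with hN
  have hN1 : L ^ (C0 * 16) ≤ (N : ℝ) := Nat.le_ceil _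
  have hL1 : 1 ≤ L ^ (C0 * 16) := one_le_pow₀ hL
  have hN2 : (1 : ℝ) ≤ N := hL1.trans hN1
  have hNV : 1 ≤ (N : ℝ) * V := by
    have h3 : 1 ≤ L ^ (C0 * 16) * V := by
      have h4 : (L ^ (C0 * 16)) * (1 / L ^ (C0 * 16)) ≤ L ^ (C0 * 16) * V :=
        mul_le_mul_of_nonneg_left hV2 (by positivity)
      rwa [mul_one_div_cancel (by positivity)] at h4
    have hV0 : 0 ≤ V := le_trans (by positivity) hV2
    exact h3.trans (mul_le_mul_of_nonneg_right hN1 hV0)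
  have hg1 := hy1 y a3
  push_cast at hg1
  have hsq : 8 * (N : ℝ) * Real.sqrt M ≤ M := by
    have h3 : 8 * (N : ℝ) ≤ Real.sqrt M := by
      have h4 : (N : ℝ) ≤ (N : ℝ) ^ 3 := le_self_pow₀ hN2 (by norm_num)
      have h5 : Real.sqrt y ≤ Real.sqrt M := Real.sqrt_le_sqrt (by exact_mod_cast hyM)
      have h6 : 8 * (N : ℝ) ^ 3 ≤ Real.sqrt y := hg1
      linarith
    have h4 : Real.sqrt M * Real.sqrt M = M := Real.mul_self_sqrt (Nat.cast_nonneg _)
    have h5 := mul_le_mul_of_nonneg_right h3 (Real.sqrt_nonneg (M : ℝ))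
    linarith
  have h2' : ((((Icc 1 M).filter (fun n : ℕ => ∀ p ∈ FL.pz y, ¬ QQ a b g z t P M p n)).card : ℕ) : ℝ) ≤
      ((Sif a b g z t P y M).card : ℝ) := by exact_mod_cast h2
  have hMr : (0 : ℝ) < M := by exact_mod_cast hM0
  set S := ((Sif a b g z t P y M).card : ℝ) with hSd
  have h3 : (M : ℝ) * V / 2 - Real.sqrt M ≤ S := by linarith
  have h4 : (N : ℝ) * ((M : ℝ) * V / 2 - Real.sqrt M) ≤ N * S :=
    mul_le_mul_of_nonneg_left h3 (by linarith)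
  have h5 : (M : ℝ) ≤ M * (N * V) := by nlinarith
  have h6 : 3 * (M : ℝ) ≤ 8 * (N * S) := by nlinarith
  rw [hSd] at h6
  exact_mod_cast h6

theorem good_many {a b g z t P : ℕ} (hb : 0 < b) (hg : 0 < g) (hz : 0 < z) (ht : 0 < t)
    (hP : 64 ≤ P) (hgP : g ≤ P) (hzP : z ≤ P) (htP : t ≤ P)
    (hbP : ∀ p : ℕ, p.Prime → p ∣ b → p ≤ P) :
    ∃ K C y0 : ℕ, 1 ≤ K ∧ ∀ y : ℕ, y0 ≤ y →
      y ^ K ≤ 4 * (⌈Real.log y ^ C⌉₊ * (Gd a b g z t P y (y ^ K)).card) := by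
  classical
  obtain ⟨K, C, y0, hK, hS⟩ := sif_many (a := a) (z := z) (t := t) hg hP hgP hbP
  set E := 10 * 2048 ^ 2 * g * b ^ 2 * (z + t) with hE
  obtain ⟨y1, hy1⟩ := grow C (1024 * (E + 1))
  obtain ⟨n2, hn2⟩ := FL.ev_L' 1
  refine ⟨K, C, max (max y0 P) (max (max y1 n2) (a + 2 * z + 2 * t + 1)), hK, fun y hy => ?_⟩
  have a1 : y0 ≤ y := by omega
  have a2 : P ≤ y := by omega
  have a3 : y1 ≤ y := by omega
  have a4 : n2 ≤ y := by omega
  have a5 : a + 2 * z + 2 * t + 1 ≤ y := by omega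
  have hs := hS y a1
  have hg1 := hy1 y a3
  set M := y ^ K with hM
  have hyM : y ≤ M := Nat.le_self_pow (by omega) y
  set N := ⌈Real.log y ^ C⌉₊ with hN
  have hN1 : 1 ≤ N := by
    have h1 : (1 : ℝ) ≤ Real.log y ^ C := one_le_pow₀ (hn2 y a4)
    have h2 : (1 : ℝ) ≤ N := h1.trans (Nat.le_ceil _)
    exact_mod_cast h2
  have hy1r : (1 : ℝ) ≤ y := by exact_mod_cast (by omega : 1 ≤ y)
  have hgN : 1024 * (E + 1) * N ^ 3 ≤ y := by
    have h1 : Real.sqrt y ≤ y := by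
      rw [Real.sqrt_le_left (by linarith)]
      nlinarith
    have h2 : ((1024 * (E + 1) * N ^ 3 : ℕ) : ℝ) ≤ y := by
      push_cast
      push_cast at hg1
      exact hg1.trans h1
    exact_mod_cast h2
  have hN3 : N ≤ N ^ 3 := Nat.le_self_pow (by norm_num) N
  have hyN : 1024 * N ≤ y := by
    calc 1024 * N ≤ 1024 * (E + 1) * N ^ 3 := by
          have : 1 * N ≤ (E + 1) * N ^ 3 := Nat.mul_le_mul (by omega) hN3
          rw [mul_assoc]; omega
      _ ≤ y := hgN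
  have bd : ∀ (c : ℕ) (e : ℤ), 0 < c → c ≤ P → c ≤ z + t → e = (c : ℤ) ^ 2 ∨ e = -(c : ℤ) ^ 2 →
      200 * (N * (Bad a b g e y M).card) ≤ M := by
    intro c e hc hcP hczt he
    obtain ⟨σ, h1, h2⟩ := card_bad' (a := a) (P := y) (W := 2048 * N) (M := M) hb hc hg
      (by omega) (by omega) (by omega) (fun p hp h => (hbP p hp h).trans a2) he (by omega) (by omega)
    have h3 : 1024 * (N * σ) ≤ M := by
      calc 1024 * (N * σ) = (1024 * N) * σ := by ring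
        _ ≤ y * σ := Nat.mul_le_mul_right _ hyN
        _ ≤ M := h1
    have h4 : 2048 * (N * (M / (2048 * N))) ≤ M := by
      calc 2048 * (N * (M / (2048 * N))) = (2048 * N) * (M / (2048 * N)) := by ring
        _ ≤ M := Nat.mul_div_le _ _
    have h5 : 1024 * (N * (10 * (2048 * N) ^ 2 * g * b ^ 2 * c)) ≤ M := by
      calc 1024 * (N * (10 * (2048 * N) ^ 2 * g * b ^ 2 * c)) =
            1024 * (10 * 2048 ^ 2 * g * b ^ 2 * c) * N ^ 3 := by ring
        _ ≤ 1024 * (E + 1) * N ^ 3 := by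
            refine Nat.mul_le_mul_right _ (Nat.mul_le_mul_left _ ?_)
            refine le_trans ?_ (Nat.le_succ E)
            rw [hE]
            exact Nat.mul_le_mul_left _ hczt
        _ ≤ y := hgN
        _ ≤ M := hyM
    have h6 : N * (Bad a b g e y M).card ≤ N * (2 * (σ + 2 * (M / (2048 * N))) +
        10 * (2048 * N) ^ 2 * g * b ^ 2 * c) := Nat.mul_le_mul_left _ h2
    have h7 : N * (2 * (σ + 2 * (M / (2048 * N))) + 10 * (2048 * N) ^ 2 * g * b ^ 2 * c) =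
        2 * (N * σ) + 4 * (N * (M / (2048 * N))) + N * (10 * (2048 * N) ^ 2 * g * b ^ 2 * c) := by
      ring
    rw [h7] at h6
    generalize N * (10 * (2048 * N) ^ 2 * g * b ^ 2 * c) = A1 at *
    generalize N * (M / (2048 * N)) = A2 at *
    generalize N * σ = A3 at *
    omega
  have b1 := bd z ((z : ℤ) ^ 2) hz hzP (by omega) (Or.inl rfl)
  have b2 := bd z (-(z : ℤ) ^ 2) hz hzP (by omega) (Or.inr rfl)
  have b3 := bd t ((t : ℤ) ^ 2) ht htP (by omega) (Or.inl rfl)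
  have b4 := bd t (-(t : ℤ) ^ 2) ht htP (by omega) (Or.inr rfl)
  have h1 := le_card_sdiff ((Bad a b g ((z : ℤ) ^ 2) y M ∪ Bad a b g (-(z : ℤ) ^ 2) y M) ∪
      (Bad a b g ((t : ℤ) ^ 2) y M ∪ Bad a b g (-(t : ℤ) ^ 2) y M)) (Sif a b g z t P y M)
  have h2 := card_union_le (Bad a b g ((z : ℤ) ^ 2) y M ∪ Bad a b g (-(z : ℤ) ^ 2) y M)
      (Bad a b g ((t : ℤ) ^ 2) y M ∪ Bad a b g (-(t : ℤ) ^ 2) y M)
  have h3 := card_union_le (Bad a b g ((z : ℤ) ^ 2) y M) (Bad a b g (-(z : ℤ) ^ 2) y M)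
  have h4 := card_union_le (Bad a b g ((t : ℤ) ^ 2) y M) (Bad a b g (-(t : ℤ) ^ 2) y M)
  have h5 : (Sif a b g z t P y M).card ≤ (Gd a b g z t P y M).card +
      ((Bad a b g ((z : ℤ) ^ 2) y M).card + (Bad a b g (-(z : ℤ) ^ 2) y M).card +
      (Bad a b g ((t : ℤ) ^ 2) y M).card + (Bad a b g (-(t : ℤ) ^ 2) y M).card) := by
    unfold Gd
    omega
  have h6 := Nat.mul_le_mul_left N h5
  rw [mul_add, mul_add, mul_add, mul_add] at h6
  generalize N * (Bad a b g ((z : ℤ) ^ 2) y M).card = A1 at *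
  generalize N * (Bad a b g (-(z : ℤ) ^ 2) y M).card = A2 at *
  generalize N * (Bad a b g ((t : ℤ) ^ 2) y M).card = A3 at *
  generalize N * (Bad a b g (-(t : ℤ) ^ 2) y M).card = A4 at *
  generalize N * (Sif a b g z t P y M).card = A5 at *
  generalize N * (Gd a b g z t P y M).card = A6 at *
  omega

end Pool.Agent.T6.H10.CT
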