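import Pool.Agent.T6.H10.CT.G
import Pool.Agent.T6.H10.CT.H2

/-!
Pairs of squarefree congruent numbers `n`, `n + δ g` with a bounded number of prime factors.
-/

set_option autoImplicit false

open Finset

namespace Pool.Agent.T6.H10.CT

/-- the pairs with at most `R` prime factors -/
def APairs (h r R T : ℕ) : Set ℕ :=
  {n | n ∈ Pairs h r T ∧ n.primeFactors.card ≤ R ∧ (n + h).primeFactors.card ≤ R}

theorem apairs_finite (h r R T : ℕ) : (APairs h r R T).Finite :=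
  (pairs_finite h r T).subset fun _ hn => hn.1

theorem om {m g P y k : ℕ} (hg : 0 < g) (hgP : g ≤ P) (hy : 1 < y) (hm : 0 < m)
    (hno : ∀ p : ℕ, p.Prime → P < p → p ≤ y → ¬ p ∣ m) (hlt : m < y ^ (k + 1)) :
    (g * m).primeFactors.card ≤ P + 1 + k := by
  classical
  set s := m.primeFactors.filter (fun p => y < p) with hs
  have h1 : (g * m).primeFactors ⊆ range (P + 1) ∪ s := by
    intro p hp
    have hpp := Nat.prime_of_mem_primeFactors hp
    have hd := Nat.dvd_of_mem_primeFactors hp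
    rw [mem_union]
    by_cases hpP : p ≤ P
    · left; exact mem_range.2 (by omega)
    · right
      have h2 : p ∣ m := by
        rcases (Nat.Prime.dvd_mul hpp).1 hd with h | h
        · have := Nat.le_of_dvd hg h
          omega
        · exact h
      refine mem_filter.2 ⟨Nat.mem_primeFactors.2 ⟨hpp, h2, hm.ne'⟩, ?_⟩
      by_contra h3
      exact hno p hpp (by omega) (by omega) h2
  have h2 : s.card ≤ k := by
    have h3 : y ^ s.card ≤ m := by
      calc y ^ s.card = ∏ _p ∈ s, y := (prod_const y).symm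
        _ ≤ ∏ p ∈ s, p := prod_le_prod (fun _ _ => Nat.zero_le _) fun p hp => (mem_filter.1 hp).2.le
        _ ≤ m := Nat.le_of_dvd hm ((prod_dvd_prod_of_subset _ _ _ (filter_subset _ _)).trans
            (Nat.prod_primeFactors_dvd m))
    have h4 : y ^ s.card < y ^ (k + 1) := lt_of_le_of_lt h3 hlt
    have h5 := (Nat.pow_lt_pow_iff_right hy).1 h4
    omega
  calc (g * m).primeFactors.card ≤ (range (P + 1) ∪ s).card := card_le_card h1
    _ ≤ (range (P + 1)).card + s.card := card_union_le _ _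
    _ ≤ P + 1 + k := by rw [card_range]; omega

open Classical in
/-- many good `u`, almost primes -/
theorem main_v {δ g z t v x₀ r : ℕ} {κ : ℤ} (hg : Squarefree g) (hgo : Odd g) (hv : 0 < v)
    (ht : 0 < t) (he : z ^ 4 = t ^ 4 + δ * (4 * v) ^ 2) (hzo : Odd z) (hto : Odd t)
    (hzv : Nat.Coprime z v) (hgz : Nat.Coprime g z) (hgt : Nat.Coprime g t)
    (hx : Odd x₀) (hκ : (4 * (v : ℤ)) ^ 2 * κ + (z : ℤ) ^ 4 = (g : ℤ) ^ 2 * (x₀ : ℤ) ^ 4)
    (hr : ¬ 4 ∣ r) (hr' : ¬ 4 ∣ r + δ * g) :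
    ∃ R B K C y₀ : ℕ, 0 < B ∧ 1 ≤ K ∧ ∀ y : ℕ, y₀ ≤ y → y ^ K ≤
      4 * (⌈Real.log y ^ C⌉₊ * (APairs (δ * g) r R ((B * y ^ K) ^ 4)).ncard) := by
  have hz0 : 0 < z := hzo.pos
  have hg0 : 0 < g := hgo.pos
  set P := 64 + g + z + t + v with hP
  obtain ⟨k, Q, hQ, hQP, hloc⟩ := local_class he hx hgo hzv hgz hgt hκ r P
  set a := x₀ + 4 * v ^ 2 * k with ha
  set b := 4 * v ^ 2 * Q with hb
  have hb0 : 0 < b := by positivity
  have hbP : ∀ p : ℕ, p.Prime → p ∣ b → p ≤ P := by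
    intro p hp h
    rcases (Nat.Prime.dvd_mul hp).1 h with h1 | h1
    · rcases (Nat.Prime.dvd_mul hp).1 h1 with h2 | h2
      · have : p ∣ 2 ^ 2 := h2
        have := (Nat.prime_dvd_prime_iff_eq hp Nat.prime_two).1 (hp.dvd_of_dvd_pow this)
        omega
      · have := Nat.le_of_dvd hv (hp.dvd_of_dvd_pow h2)
        omega
    · rcases hQP p hp h1 with h2 | h2
      · exact h2
      · omega
  obtain ⟨K, C, y0, hK, hGd⟩ := good_many (a := a) (b := b) (g := g) (z := z) (t := t) (P := P)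
    hb0 hg0 hz0 ht (by omega) (by omega) (by omega) (by omega) hbP
  refine ⟨P + 1 + 4 * K, 3 * g * b, K, C, y0 + P + a + z + t + g ^ 2 * (3 * b) ^ 4 + 1,
    by positivity, hK, fun y hy => ?_⟩
  have hGc := hGd y (by omega)
  set M := y ^ K with hMdef
  have hyM : y ≤ M := Nat.le_self_pow (by omega) y
  have hyP : P ≤ y := by omega
  have hM : z + t + a + 1 ≤ M := by omega
  have hyb : g ^ 2 * (3 * b) ^ 4 < y := by omega
  clear hy
  set G := Gd a b g z t P y M with hG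
  -- the number attached to `u`
  set X : ℕ → ℕ := fun u => x₀ + 4 * v ^ 2 * (k + Q * u) with hX
  set n' : ℕ → ℕ := fun u => (F κ g x₀ v ((k + Q * u : ℕ) : ℤ)).toNat with hn'
  have hXlin : ∀ u, ((X u : ℕ) : ℤ) = lin a b u := by
    intro u
    simp only [hX, lin, ha, hb]
    push_cast; ring
  have hXu : ∀ u, M ≤ u → z < X u ∧ t < X u := by
    intro u hu
    have h1 : u ≤ Q * u := Nat.le_mul_of_pos_left u hQ
    have h2 : k + Q * u ≤ 4 * v ^ 2 * (k + Q * u) := Nat.le_mul_of_pos_left _ (by positivity)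
    simp only [hX]
    constructor <;> omega
  have hFe : ∀ u, (4 * (v : ℤ)) ^ 2 * F κ g x₀ v ((k + Q * u : ℕ) : ℤ) + (z : ℤ) ^ 4 =
      (g : ℤ) ^ 2 * (X u : ℤ) ^ 4 := by
    intro u
    have h1 := F_eq hκ ((k + Q * u : ℕ) : ℤ)
    simp only [hX]
    rw [h1]
    push_cast; ring
  have hFpos : ∀ u, M ≤ u → 0 < F κ g x₀ v ((k + Q * u : ℕ) : ℤ) := by
    intro u hu
    have h1 : (z : ℤ) ^ 4 < (X u : ℤ) ^ 4 := by
      have : z ^ 4 < X u ^ 4 := Nat.pow_lt_pow_left (hXu u hu).1 (by norm_num)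
      exact_mod_cast this
    have h2 : (X u : ℤ) ^ 4 ≤ (g : ℤ) ^ 2 * (X u : ℤ) ^ 4 := by
      have h3 : (1 : ℤ) ≤ (g : ℤ) ^ 2 := by
        have : 1 ≤ g ^ 2 := Nat.one_le_pow _ _ hg0
        exact_mod_cast this
      nlinarith [show (0 : ℤ) ≤ (X u : ℤ) ^ 4 by positivity]
    have h3 := hFe u
    have h4 : 0 < (4 * (v : ℤ)) ^ 2 * F κ g x₀ v ((k + Q * u : ℕ) : ℤ) := by linarith
    exact pos_of_mul_pos_right h4 (by positivity)
  have hn'F : ∀ u, M ≤ u → ((n' u : ℕ) : ℤ) = F κ g x₀ v ((k + Q * u : ℕ) : ℤ) := fun u hu =>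
    Int.toNat_of_nonneg (hFpos u hu).le
  have eq1 : ∀ u, M ≤ u → (4 * v) ^ 2 * n' u + z ^ 4 = g ^ 2 * X u ^ 4 := by
    intro u hu
    have h1 := hFe u
    rw [← hn'F u hu] at h1
    exact_mod_cast h1
  have eq2 : ∀ u, M ≤ u → (4 * v) ^ 2 * (n' u + δ) + t ^ 4 = g ^ 2 * X u ^ 4 := by
    intro u hu
    rw [← eq1 u hu, he]; ring
  have hXodd : ∀ u, Odd (X u) := fun u => by
    simp only [hX]
    exact hx.add_even ⟨2 * v ^ 2 * (k + Q * u), by ring⟩
  have copg : ∀ (c m u : ℕ), Nat.Coprime g c → (4 * v) ^ 2 * m + c ^ 4 = g ^ 2 * X u ^ 4 →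
      Nat.Coprime g m := by
    intro c m u hgc h
    refine Nat.coprime_of_dvd fun p hp h1 h2 => ?_
    have h3 : p ∣ (4 * v) ^ 2 * m + c ^ 4 := by
      rw [h]; exact (dvd_pow h1 two_ne_zero).mul_right _
    have h4 : p ∣ c ^ 4 := (Nat.dvd_add_right (h2.mul_left _)).1 h3
    have h5 := Nat.dvd_gcd h1 (hp.dvd_of_dvd_pow h4)
    rw [hgc] at h5
    exact hp.one_lt.ne' (Nat.dvd_one.1 h5)
  have large : ∀ (c m u p : ℕ), 0 < c → c ≤ P → u ∈ Ico M (2 * M) →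
      (4 * v) ^ 2 * m + c ^ 4 = g ^ 2 * X u ^ 4 → p.Prime → y < p → p * p ∣ m →
      u ∈ Bad a b g ((c : ℤ) ^ 2) y M ∪ Bad a b g (-(c : ℤ) ^ 2) y M := by
    intro c m u p hc0 hcP hu h hp hPp hd
    have hpc : ¬ p ∣ c := fun h1 => by
      have := Nat.le_of_dvd hc0 h1; omega
    have h1 : (p : ℤ) ^ 2 ∣ (g : ℤ) ^ 2 * (lin a b u) ^ 4 - (c : ℤ) ^ 4 := by
      rw [← hXlin u]
      have h2 : (p : ℤ) ^ 2 ∣ (m : ℤ) := by
        rw [← sq] at hd; exact_mod_cast hd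
      have h3 : (g : ℤ) ^ 2 * (X u : ℤ) ^ 4 - (c : ℤ) ^ 4 = (4 * (v : ℤ)) ^ 2 * m := by
        have h' : (4 * (v : ℤ)) ^ 2 * m + (c : ℤ) ^ 4 = (g : ℤ) ^ 2 * (X u : ℤ) ^ 4 := by
          exact_mod_cast h
        linarith
      rw [h3]; exact h2.mul_left _
    rw [mem_union]
    rcases sq_factor hp (by omega) hpc h1 with h2 | h2
    · left; exact mem_filter.2 ⟨hu, p, hp, hPp, h2⟩
    · right; exact mem_filter.2 ⟨hu, p, hp, hPp, h2⟩
  have hXb : ∀ u ∈ Ico M (2 * M), X u ≤ 3 * b * M := by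
    intro u hu1
    have h3 : X u = a + b * u := by simp only [hX, ha, hb]; ring
    rw [h3]
    have h4 : b * u ≤ b * (2 * M) := Nat.mul_le_mul_left _ (mem_Ico.1 hu1).2.le
    have h5 : a ≤ b * M := (by omega : a ≤ M).trans (Nat.le_mul_of_pos_left M hb0)
    nlinarith
  have hlt : ∀ (c m u : ℕ), u ∈ Ico M (2 * M) → (4 * v) ^ 2 * m + c ^ 4 = g ^ 2 * X u ^ 4 →
      m < y ^ (4 * K + 1) := by
    intro c m u hu h
    have h1 : m ≤ g ^ 2 * X u ^ 4 := by
      rw [← h]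
      have : m ≤ (4 * v) ^ 2 * m := Nat.le_mul_of_pos_left _ (by positivity)
      omega
    calc m ≤ g ^ 2 * X u ^ 4 := h1
      _ ≤ g ^ 2 * (3 * b * M) ^ 4 := Nat.mul_le_mul_left _ (Nat.pow_le_pow_left (hXb u hu) 4)
      _ = (g ^ 2 * (3 * b) ^ 4) * (y ^ K) ^ 4 := by rw [hMdef]; ring
      _ < y * (y ^ K) ^ 4 :=
          Nat.mul_lt_mul_of_pos_right hyb (pow_pos (pow_pos (by omega) K) 4)
      _ = y ^ (4 * K + 1) := by rw [← pow_mul]; ring
  have key : ∀ u ∈ G, g * n' u ∈ APairs (δ * g) r (P + 1 + 4 * K) ((3 * g * b * M) ^ 4) := by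
    intro u hu
    obtain ⟨hu1', hu2⟩ := mem_sdiff.1 hu
    obtain ⟨hu1, hsif⟩ := mem_filter.1 hu1'
    have huM := (mem_Ico.1 hu1).1
    rw [mem_union, not_or] at hu2
    obtain ⟨l1, l2⟩ := hloc u
    rw [← hn'F u huM] at l1 l2
    have l1' : (8 : ℤ) ∣ ((g * n' u : ℕ) : ℤ) - r := by push_cast; exact l1
    have hsum : g * n' u + δ * g = g * (n' u + δ) := by ring
    have l1'' : (8 : ℤ) ∣ ((g * (n' u + δ) : ℕ) : ℤ) - ((r + δ * g : ℕ) : ℤ) := by
      rw [← hsum]; push_cast; push_cast at l1'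
      have e : (g : ℤ) * n' u + δ * g - (r + δ * g) = g * n' u - r := by ring
      rw [e]; exact l1'
    have hpos : 0 < n' u := by
      have := hFpos u huM
      rw [← hn'F u huM] at this
      exact_mod_cast this
    have hXl : (X u : ℤ) = (a : ℤ) + b * (u : ℤ) := hXlin u
    have f1 : (g : ℤ) ^ 2 * ((a : ℤ) + b * (u : ℤ)) ^ 4 - (z : ℤ) ^ 4 = (4 * (v : ℤ)) ^ 2 * n' u := by
      rw [← hXl]
      have h' : (4 * (v : ℤ)) ^ 2 * n' u + (z : ℤ) ^ 4 = (g : ℤ) ^ 2 * (X u : ℤ) ^ 4 := by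
        exact_mod_cast eq1 u huM
      linarith
    have f2 : (g : ℤ) ^ 2 * ((a : ℤ) + b * (u : ℤ)) ^ 4 - (t : ℤ) ^ 4 =
        (4 * (v : ℤ)) ^ 2 * ((n' u + δ : ℕ) : ℤ) := by
      rw [← hXl]
      have h' : (4 * (v : ℤ)) ^ 2 * ((n' u + δ : ℕ) : ℤ) + (t : ℤ) ^ 4 = (g : ℤ) ^ 2 * (X u : ℤ) ^ 4 := by
        exact_mod_cast eq2 u huM
      linarith
    have nd1 : ∀ p : ℕ, p.Prime → P < p → p ≤ y → ¬ p ∣ n' u := by
      intro p hp h1 h2 h3
      apply hsif p hp h1 h2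
      unfold W2
      rw [f1]
      have h4 : (p : ℤ) ∣ ((n' u : ℕ) : ℤ) := by exact_mod_cast h3
      exact (h4.mul_left _).mul_right _
    have nd2 : ∀ p : ℕ, p.Prime → P < p → p ≤ y → ¬ p ∣ n' u + δ := by
      intro p hp h1 h2 h3
      apply hsif p hp h1 h2
      unfold W2
      rw [f2]
      have h4 : (p : ℤ) ∣ ((n' u + δ : ℕ) : ℤ) := by exact_mod_cast h3
      exact (h4.mul_left _).mul_left _
    have s1 : Squarefree (n' u) := by
      rw [Nat.squarefree_iff_prime_squarefree]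
      intro p hp hd
      by_cases hp2 : p = 2
      · subst hp2
        exact hr (four_dvd_of l1' (hd.mul_left g))
      · by_cases hpP : p ≤ P
        · apply (l2 p hp hp2 hpP).1
          rw [← sq] at hd; exact_mod_cast hd
        · by_cases hpy : p ≤ y
          · exact nd1 p hp (by omega) hpy ((dvd_mul_right p p).trans hd)
          · exact hu2.1 (large z (n' u) u p hz0 (by omega) hu1 (eq1 u huM) hp (by omega) hd)
    have s2 : Squarefree (n' u + δ) := by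
      rw [Nat.squarefree_iff_prime_squarefree]
      intro p hp hd
      by_cases hp2 : p = 2
      · subst hp2
        exact hr' (four_dvd_of l1'' (hd.mul_left g))
      · by_cases hpP : p ≤ P
        · apply (l2 p hp hp2 hpP).2
          rw [← sq] at hd; exact_mod_cast hd
        · by_cases hpy : p ≤ y
          · exact nd2 p hp (by omega) hpy ((dvd_mul_right p p).trans hd)
          · exact hu2.2 (large t (n' u + δ) u p ht (by omega) hu1 (eq2 u huM) hp (by omega) hd)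
    refine ⟨⟨?_, ?_, ?_, ?_, ?_, ?_⟩, ?_, ?_⟩
    · -- the bound
      have h1 : n' u ≤ g ^ 2 * X u ^ 4 := by
        rw [← eq1 u huM]
        have : n' u ≤ (4 * v) ^ 2 * n' u := Nat.le_mul_of_pos_left _ (by positivity)
        omega
      calc g * n' u ≤ g * (g ^ 2 * X u ^ 4) := Nat.mul_le_mul_left _ h1
        _ = g ^ 3 * X u ^ 4 := by ring
        _ ≤ g ^ 4 * (3 * b * M) ^ 4 :=
            Nat.mul_le_mul (Nat.pow_le_pow_right hg0 (by norm_num))
              (Nat.pow_le_pow_left (hXb u hu1) 4)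
        _ = _ := by ring
    · exact (Nat.modEq_iff_dvd.2 (by push_cast at l1' ⊢; exact l1')).symm
    · exact (Nat.squarefree_mul (copg z (n' u) u hgz (eq1 u huM))).2 ⟨hg, s1⟩
    · rw [hsum]
      exact (Nat.squarefree_mul (copg t (n' u + δ) u hgt (eq2 u huM))).2 ⟨hg, s2⟩
    · exact cong_of hgo (hXodd u) hzo (by omega) hpos (eq1 u huM)
    · rw [hsum]
      exact cong_of hgo (hXodd u) hto (by omega) (by omega) (eq2 u huM)
    · exact om hg0 (by omega) (by omega) hpos nd1 (hlt z (n' u) u hu1 (eq1 u huM))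
    · rw [hsum]
      exact om hg0 (by omega) (by omega) (by omega) nd2 (hlt t (n' u + δ) u hu1 (eq2 u huM))
  have hinj : Set.InjOn (fun u => g * n' u) (G : Set ℕ) := by
    intro u hu u' hu' h
    have h1 := (mem_Ico.1 (mem_filter.1 (mem_sdiff.1 (mem_coe.1 hu)).1).1).1
    have h2 := (mem_Ico.1 (mem_filter.1 (mem_sdiff.1 (mem_coe.1 hu')).1).1).1
    have h3 : n' u = n' u' := Nat.eq_of_mul_eq_mul_left hg0 h
    have h4 : g ^ 2 * X u ^ 4 = g ^ 2 * X u' ^ 4 := by rw [← eq1 u h1, ← eq1 u' h2, h3]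
    have h5 : X u ^ 4 = X u' ^ 4 := Nat.eq_of_mul_eq_mul_left (by positivity) h4
    have h6 : X u = X u' := Nat.pow_left_injective (n := 4) (by norm_num) h5
    have h7 : 4 * v ^ 2 * (k + Q * u) = 4 * v ^ 2 * (k + Q * u') := by
      simp only [hX] at h6; omega
    have h8 : k + Q * u = k + Q * u' := Nat.eq_of_mul_eq_mul_left (by positivity) h7
    exact Nat.eq_of_mul_eq_mul_left hQ (by omega)
  have hle : G.card ≤ (APairs (δ * g) r (P + 1 + 4 * K) ((3 * g * b * M) ^ 4)).ncard := by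
    rw [← Set.ncard_coe_finset]
    exact Set.ncard_le_ncard_of_injOn (fun u => g * n' u) (fun u hu => key u hu) hinj
      (apairs_finite _ _ _ _)
  exact hGc.trans (Nat.mul_le_mul_left _ (Nat.mul_le_mul_left _ hle))


/-- the count -/
theorem count_of' {h r R B K C y₀ : ℕ} (hB : 0 < B) (hK : 1 ≤ K)
    (hM : ∀ y : ℕ, y₀ ≤ y → y ^ K ≤
      4 * (⌈Real.log y ^ C⌉₊ * (APairs h r R ((B * y ^ K) ^ 4)).ncard)) :
    ∃ c : ℝ, 0 < c ∧ ∃ T₀ : ℕ, ∀ T : ℕ, T₀ ≤ T →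
      c * (T : ℝ) ^ (1 / 4 : ℝ) / Real.log T ^ C ≤ ((APairs h r R T).ncard : ℝ) := by
  have hB' : (0 : ℝ) < B := by exact_mod_cast hB
  obtain ⟨n2, hn2⟩ := FL.ev_L' 1
  set y1 := max y₀ n2 + 1 with hy1
  refine ⟨1 / (8 * 2 ^ K * B), by positivity, (B * y1 ^ K) ^ 4, fun T hT => ?_⟩
  set τ : ℝ := (T : ℝ) ^ (1 / 4 : ℝ) with hτ
  have hτ0 : 0 ≤ τ := by positivity
  have hτ4 : τ ^ 4 = T := by
    rw [hτ, ← Real.rpow_natCast, ← Real.rpow_mul (Nat.cast_nonneg _)]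
    norm_num
  -- the largest `y`
  have hex : ∃ y : ℕ, y1 ≤ y ∧ (B * y ^ K) ^ 4 ≤ T ∧ T < (B * (y + 1) ^ K) ^ 4 := by
    have hb : ∃ y : ℕ, T < (B * (y + 1) ^ K) ^ 4 := by
      refine ⟨T, ?_⟩
      calc T < T + 1 := Nat.lt_succ_self T
        _ ≤ (T + 1) ^ K := Nat.le_self_pow (by omega) _
        _ ≤ B * (T + 1) ^ K := Nat.le_mul_of_pos_left _ hB
        _ ≤ (B * (T + 1) ^ K) ^ 4 := Nat.le_self_pow (by norm_num) _
    classical
    have hf := Nat.find_spec hb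
    have hmin := @Nat.find_min _ _ hb
    set y := Nat.find hb with hy
    have hyy : y1 ≤ y := by
      by_contra hcon
      have h1 : y + 1 ≤ y1 := by omega
      have h2 : (B * (y + 1) ^ K) ^ 4 ≤ (B * y1 ^ K) ^ 4 :=
        Nat.pow_le_pow_left (Nat.mul_le_mul_left _ (Nat.pow_le_pow_left h1 K)) 4
      omega
    refine ⟨y, hyy, ?_, hf⟩
    have h1 := hmin (m := y - 1) (by omega)
    rw [show y - 1 + 1 = y by omega] at h1
    omega
  obtain ⟨y, hyy, hyT, hTy⟩ := hex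
  have hy0 : 1 ≤ y := by omega
  have h1 := hM y (by omega)
  have hmono : (APairs h r R ((B * y ^ K) ^ 4)).ncard ≤ (APairs h r R T).ncard :=
    Set.ncard_le_ncard (fun n hn => ⟨⟨hn.1.1.trans hyT, hn.1.2⟩, hn.2⟩) (apairs_finite _ _ _ _)
  set N := (APairs h r R T).ncard with hN
  have h2 : y ^ K ≤ 4 * (⌈Real.log y ^ C⌉₊ * N) :=
    h1.trans (Nat.mul_le_mul_left _ (Nat.mul_le_mul_left _ hmono))
  have h2r : (y : ℝ) ^ K ≤ 4 * ((⌈Real.log y ^ C⌉₊ : ℝ) * N) := by exact_mod_cast h2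
  have hL1 : 1 ≤ Real.log y := hn2 y (by omega)
  have hyleT : y ≤ T := by
    calc y ≤ y ^ K := Nat.le_self_pow (by omega) _
      _ ≤ B * y ^ K := Nat.le_mul_of_pos_left _ hB
      _ ≤ (B * y ^ K) ^ 4 := Nat.le_self_pow (by norm_num) _
      _ ≤ T := hyT
  have hLT : Real.log y ≤ Real.log T :=
    Real.log_le_log (by exact_mod_cast hy0) (by exact_mod_cast hyleT)
  have hceil : (⌈Real.log y ^ C⌉₊ : ℝ) ≤ 2 * Real.log T ^ C := by
    have h3 := Nat.ceil_lt_add_one (show 0 ≤ Real.log y ^ C by positivity)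
    have h4 : (1 : ℝ) ≤ Real.log y ^ C := one_le_pow₀ hL1
    have h5 : Real.log y ^ C ≤ Real.log T ^ C := pow_le_pow_left₀ (by linarith) hLT C
    linarith
  have hN0 : (0 : ℝ) ≤ N := Nat.cast_nonneg _
  have h3 : (y : ℝ) ^ K ≤ 8 * (Real.log T ^ C * N) := by
    have := mul_le_mul_of_nonneg_right hceil hN0
    linarith
  have h4 : τ ≤ B * ((y : ℝ) + 1) ^ K := by
    refine le_of_pow_le_pow_left₀ (n := 4) (by norm_num) (by positivity) ?_
    rw [hτ4]
    have : (T : ℝ) ≤ (((B * (y + 1) ^ K) ^ 4 : ℕ) : ℝ) := by exact_mod_cast hTy.le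
    push_cast at this
    exact this
  have hyr : (1 : ℝ) ≤ y := by exact_mod_cast hy0
  have h5 : ((y : ℝ) + 1) ^ K ≤ 2 ^ K * (y : ℝ) ^ K := by
    rw [← mul_pow]
    exact pow_le_pow_left₀ (by linarith) (by linarith) K
  have hLTp : 0 < Real.log T ^ C := by
    have : 0 < Real.log T := by linarith
    positivity
  rw [div_le_iff₀ hLTp]
  have h2K : (0 : ℝ) < 2 ^ K := by positivity
  have h6 : τ ≤ B * (2 ^ K * (8 * (Real.log T ^ C * N))) := by
    refine h4.trans (mul_le_mul_of_nonneg_left ?_ hB'.le)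
    exact h5.trans (mul_le_mul_of_nonneg_left h3 h2K.le)
  rw [one_div, inv_mul_le_iff₀ (by positivity)]
  calc τ ≤ B * (2 ^ K * (8 * (Real.log T ^ C * N))) := h6
    _ = 8 * 2 ^ K * B * (N * Real.log T ^ C) := by ring

theorem main' {δ g x y z t r : ℕ} (hδ : Squarefree δ) (hg : Squarefree g) (hx0 : 0 < x)
    (hy0 : 0 < y) (ht0 : 0 < t) (hxy : Nat.Coprime x y) (e1 : x ^ 2 + δ * y ^ 2 = z ^ 2)
    (e2 : x ^ 2 = δ * y ^ 2 + t ^ 2) (hgz : Nat.Coprime g (z * t))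
    (hs : ∃ s : ℕ, g ≡ s ^ 2 [MOD (2 * x * y) ^ 2]) (hr : ¬ 4 ∣ r) (hr' : ¬ 4 ∣ r + δ * g) :
    ∃ (R C : ℕ) (c : ℝ), 0 < c ∧ ∃ T₀ : ℕ, ∀ T : ℕ, T₀ ≤ T →
      c * (T : ℝ) ^ (1 / 4 : ℝ) / Real.log T ^ C ≤ ((APairs (δ * g) r R T).ncard : ℝ) := by
  obtain ⟨v, hv0, hv, he, hzo, hto, -, hzv, -⟩ := prim_of hδ hxy hx0 hy0 ht0 e1 e2
  obtain ⟨s, hs⟩ := hs
  rw [hv] at hs
  obtain ⟨hgo, x₀, κ, hx, hκ⟩ := exists_root hg hv0 hzo hs
  obtain ⟨R, B, K, C, y₀, hB, hK, hM⟩ := main_v hg hgo hv0 ht0 he hzo hto hzv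
    (Nat.Coprime.coprime_mul_right_right hgz) (Nat.Coprime.coprime_mul_left_right hgz) hx hκ hr hr'
  exact ⟨R, C, count_of' hB hK hM⟩

end Pool.Agent.T6.H10.CT
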